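import Pool.Agent.Helper269.Uni
import Pool.Agent.W182.PW.Lin

/-!
# Common patterns in the sets of the summands of several even numbers

For an even number `N` write `E(N, X) = X ∏ (1 - ν(q) / q)` (product over the primes `q ≤ X`), where `ν(q) = 1` if
`q ∣ N` and `ν(q) = 2` otherwise; `E(N, N)` has the order of magnitude `N ^ 2 / (φ(N) (log N) ^ 2)`.
(1) Let `N_1, ..., N_M` be arbitrary even numbers and let `S_j` be an arbitrary set of integers `n < N_j` in an
arbitrary interval of length `X`, for which `n` and `N_j - n` have no prime factors up to `X ^ κ` (for example a set of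
summands `n > X ^ κ` of representations of `N_j` as the sum of two primes, the other one also larger than `X ^ κ`).
If `S_j` has at least `δ E(N_j, X)` elements, for all `j`, then the `S_j` have common difference vectors: for a positive
proportion of the vectors `h ∈ {1, ..., D} ^ m` the set `S_j` contains for every `P ⊆ {0, ..., k - 1} ^ m` with `0 ∈ P`
the number of patterns `n + f · h`, `f ∈ P`, which is predicted for `N_j`, for all `j` at once; here `D` is arbitrary
with `(log X) ^ B ≤ D ≤ X`, and all constants are independent of the numbers `N_j`. For `m = 1`: a positive proportion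
of the integers up to `D` are differences of `k`-term arithmetic progressions in all the sets `S_j`.
(2) The `n` in an arbitrary interval `(A, A + X]`, `A + X < N ≤ X ^ h`, for which `n` and `N - n` have together at most
`ρ` prime factors, all of them larger than `X ^ (1 / ρ)`, are such a set, so that (1) is unconditional for their dense
subsets, in all intervals of length at least `N ^ (1 / h)`.

The proof specialises the theorems of `Pool.Agent.X26` of the starting library.
-/

set_option autoImplicit false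

namespace Pool.Agent.Results.MP_629a14_nt.CommonPatterns

open Filter

/-- `n < N`, and all prime factors of `n` and of `N - n` are larger than `y`. -/
def Rough (N : ℕ) (y : ℝ) (n : ℕ) : Prop := n < N ∧ ∀ q : ℕ, q.Prime → (q ∣ n ∨ q ∣ N - n) → y < q

/-- The integer `f · h = f 0 * h 0 + f 1 * h 1 + ...`. -/
def dot {m : ℕ} (f h : Fin m → ℕ) : ℕ := ∑ i, f i * h i

/-- The number of the residues `u` modulo `q` such that `w ≡ 0` or `w ≡ N` modulo `q` for some `w = u + f · h`,
`f ∈ P`. -/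
noncomputable def omega (N : ℕ) {m : ℕ} (h : Fin m → ℕ) (P : Finset (Fin m → ℕ)) (q : ℕ) : ℕ :=
  {u : ℕ | 1 ≤ u ∧ u ≤ q ∧ ∃ f ∈ P, q ∣ u + dot f h ∨ u + dot f h ≡ N [MOD q]}.ncard

/-- `X` times the product of the `1 - w q / q` over the primes `q ≤ X`. -/
noncomputable def expected (w : ℕ → ℕ) (X : ℕ) : ℝ :=
  X * ∏ q ∈ (Finset.Icc 1 X).filter Nat.Prime, (1 - (w q : ℝ) / q)

/-- `1` if `q ∣ N`, and `2` otherwise. -/
def nu (N q : ℕ) : ℕ := if q ∣ N then 1 else 2

/-- The number of the `n ∈ S` such that all the `n + f · h`, `f ∈ P`, are in `S`. -/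
noncomputable def count (S : Set ℕ) {m : ℕ} (h : Fin m → ℕ) (P : Finset (Fin m → ℕ)) : ℕ :=
  {n : ℕ | n ∈ S ∧ ∀ f ∈ P, n + dot f h ∈ S}.ncard

/-- For all `P ⊆ {0, ..., k - 1} ^ m` with `0 ∈ P`: the integers `f · h`, `f ∈ P`, are different, and for all `j`
the conditions modulo the primes are solvable and the set `S j` contains at least `c` times the expected number of
the patterns `n + f · h`, `f ∈ P`. -/
def Common {M m : ℕ} (N : Fin M → ℕ) (c : ℝ) (k X : ℕ) (S : Fin M → Set ℕ) (h : Fin m → ℕ) : Prop :=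
  ∀ P : Finset (Fin m → ℕ), (∀ f ∈ P, ∀ i, f i < k) → (fun _ => 0) ∈ P →
    Set.InjOn (fun f => dot f h) (P : Set (Fin m → ℕ)) ∧
      ∀ j, (∀ q : ℕ, q.Prime → omega (N j) h P q < q) ∧
        c * expected (omega (N j) h P) X ≤ (count (S j) h P : ℝ)

/-- The `n < N` for which `n` and `N - n` have together at most `ρ` prime factors, counted with multiplicity, all of
them larger than `X ^ (1 / ρ)`. -/
def Almost (N ρ X : ℕ) : Set ℕ :=
  {n | n < N ∧ ArithmeticFunction.cardFactors n + ArithmeticFunction.cardFactors (N - n) ≤ ρ ∧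
    ∀ q : ℕ, q.Prime → (q ∣ n ∨ q ∣ N - n) → (X : ℝ) ^ (1 / (ρ : ℝ)) < q}

/-- the polynomials -/
noncomputable def F (N : ℕ) (i : Fin 2) : Polynomial ℤ :=
  if i = 0 then Polynomial.X else Pool.Agent.W182.PW.lin 1 (-(N : ℤ))

/-- the relation -/
def R (N q n : ℕ) : Prop := q ∣ n ∨ n ≡ N [MOD q]

theorem F_eval (N : ℕ) (x : ℤ) : (F N 0).eval x = x ∧ (F N 1).eval x = x - N := by
  constructor
  · unfold F
    rw [if_pos rfl, Polynomial.eval_X]
  · unfold F
    rw [if_neg (by decide), Pool.Agent.W182.PW.lin_eval]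
    push_cast
    ring

theorem prod_eval (N : ℕ) (x : ℤ) : (∏ i, F N i).eval x = x * (x - N) := by
  rw [Polynomial.eval_prod, Fin.prod_univ_two, (F_eval N x).1, (F_eval N x).2]

theorem hR (N : ℕ) : ∀ q n : ℕ, 1 ≤ n → (R N q n ↔ ∃ i, (q : ℤ) ∣ (F N i).eval (n : ℤ)) := by
  intro q n _
  unfold R
  constructor
  · rintro (h | h)
    · exact ⟨0, by rw [(F_eval N n).1]; exact Int.natCast_dvd_natCast.2 h⟩
    · refine ⟨1, ?_⟩
      rw [(F_eval N n).2]
      exact (Int.natCast_modEq_iff.2 h).symm.dvd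
  · rintro ⟨i, hi⟩
    fin_cases i
    · have h2 : (q : ℤ) ∣ (F N 0).eval (n : ℤ) := hi
      rw [(F_eval N n).1] at h2
      exact Or.inl (Int.natCast_dvd_natCast.1 h2)
    · have h2 : (q : ℤ) ∣ (F N 1).eval (n : ℤ) := hi
      rw [(F_eval N n).2] at h2
      exact Or.inr (Int.natCast_modEq_iff.1 (Int.modEq_iff_dvd.2 h2).symm)

theorem deg (N : ℕ) : (∏ i, F N i).natDegree ≤ 2 := by
  refine (Polynomial.natDegree_prod_le _ _).trans ?_
  rw [Fin.sum_univ_two]
  have h0 : (F N 0).natDegree ≤ 1 := by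
    unfold F
    rw [if_pos rfl]
    exact Polynomial.natDegree_X_le
  have h1 : (F N 1).natDegree ≤ 1 := by
    unfold F Pool.Agent.W182.PW.lin
    rw [if_neg (by decide)]
    exact Polynomial.natDegree_linear_le
  omega

theorem nf (N : ℕ) (hN : Even N) : Pool.Agent.X26.GP.NF (∏ i, F N i) := by
  intro q hq
  rcases eq_or_ne q 2 with h2 | h2
  · refine ⟨1, fun h => ?_⟩
    rw [prod_eval, h2, one_mul] at h
    obtain ⟨a, ha⟩ := hN
    obtain ⟨b, hb⟩ := h
    push_cast at hb
    omega
  · by_cases hd : (q : ℤ) ∣ 1 * (1 - (N : ℤ))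
    · refine ⟨2, fun h => ?_⟩
      rw [prod_eval] at h
      have hp := Nat.prime_iff_prime_int.1 hq
      rcases hp.dvd_or_dvd h with h3 | h3
      · have h4 : q ∣ 2 := by exact_mod_cast h3
        exact h2 ((Nat.prime_dvd_prime_iff_eq hq Nat.prime_two).1 h4)
      · rw [one_mul] at hd
        have h4 : (q : ℤ) ∣ 1 := by
          have h5 := dvd_sub h3 hd
          have h6 : (2 : ℤ) - N - (1 - N) = 1 := by ring
          rwa [h6] at h5
        have h5 : q ∣ 1 := by exact_mod_cast h4
        exact hq.one_lt.ne' (Nat.dvd_one.1 h5)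
    · refine ⟨1, fun h => hd ?_⟩
      rwa [prod_eval] at h

theorem nu_eq (N q : ℕ) (hq : q.Prime) : Pool.Agent.Helper269.nuR (R N) q = nu N q := by
  unfold Pool.Agent.Helper269.nuR nu R
  have hq0 := hq.pos
  by_cases hd : q ∣ N
  · rw [if_pos hd]
    have e : {u : ℕ | 1 ≤ u ∧ u ≤ q ∧ (q ∣ u ∨ u ≡ N [MOD q])} = {q} := by
      ext u
      simp only [Set.mem_ofPred_eq, Set.mem_singleton_iff]
      constructor
      · rintro ⟨h1, h2, h3⟩
        have h4 : q ∣ u := by
          rcases h3 with h3 | h3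
          · exact h3
          · exact (Nat.ModEq.dvd_iff h3 dvd_rfl).2 hd
        exact le_antisymm h2 (Nat.le_of_dvd (by omega) h4)
      · intro h
        rw [h]
        exact ⟨hq0, le_rfl, Or.inl dvd_rfl⟩
    rw [e, Set.ncard_singleton]
  · rw [if_neg hd]
    have hm : N % q ≠ 0 := fun h => hd (Nat.dvd_of_mod_eq_zero h)
    have hml : N % q < q := Nat.mod_lt _ hq0
    have e : {u : ℕ | 1 ≤ u ∧ u ≤ q ∧ (q ∣ u ∨ u ≡ N [MOD q])} = {q, N % q} := by
      ext u
      simp only [Set.mem_ofPred_eq, Set.mem_insert_iff, Set.mem_singleton_iff]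
      constructor
      · rintro ⟨h1, h2, h3⟩
        rcases h3 with h3 | h3
        · exact Or.inl (le_antisymm h2 (Nat.le_of_dvd (by omega) h3))
        · right
          have h4 : u ≠ q := by
            intro h
            rw [h] at h3
            have h5 : q ∣ N := (Nat.ModEq.dvd_iff h3 dvd_rfl).1 dvd_rfl
            exact hd h5
          have h5 : u % q = N % q := h3
          rwa [Nat.mod_eq_of_lt (by omega)] at h5
      · rintro (h | h)
        · rw [h]
          exact ⟨hq0, le_rfl, Or.inl dvd_rfl⟩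
        · rw [h]
          exact ⟨by omega, hml.le, Or.inr (Nat.mod_modEq N q)⟩
    rw [e, Set.ncard_pair (by omega)]

theorem expected_eq (N X : ℕ) :
    expected (nu N) X = X * Pool.Agent.X69.Ric.prR (Pool.Agent.Helper269.nuR (R N)) X := by
  unfold expected Pool.Agent.X69.Ric.prR
  congr 1
  apply Finset.prod_congr rfl
  intro q hq
  rw [nu_eq N q (Finset.mem_filter.1 hq).2]

/-- **Common patterns.** -/
theorem result :
    (∀ (M m k : ℕ) (κ δ : ℝ), 0 < κ → κ ≤ 1 → 0 < δ →
      ∃ c : ℝ, 0 < c ∧ ∃ B X₀ : ℕ, ∀ X D : ℕ, X₀ ≤ X → Real.log X ^ B ≤ D → D ≤ X →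
      ∀ (N A : Fin M → ℕ) (S : Fin M → Set ℕ), (∀ j, Even (N j)) → (∀ j, S j ⊆ Set.Ioc (A j) (A j + X)) →
        (∀ j, ∀ n ∈ S j, Rough (N j) ((X : ℝ) ^ κ) n) →
        (∀ j, δ * expected (nu (N j)) X ≤ ((S j).ncard : ℝ)) →
        c * (D : ℝ) ^ m ≤ ({h : Fin m → ℕ | (∀ i, 1 ≤ h i ∧ h i ≤ D) ∧ Common N c k X S h}.ncard : ℝ)) ∧
    ∀ a : ℝ, ∃ ρ : ℕ, 1 ≤ ρ ∧ ∃ X₀ : ℕ, ∀ X A N : ℕ, X₀ ≤ X → Even N → A + X < N → (N : ℝ) ≤ (X : ℝ) ^ a →
        1 / 2 * expected (nu N) X ≤ ((Almost N ρ X ∩ Set.Ioc A (A + X)).ncard : ℝ) ∧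
        ∀ n ∈ Almost N ρ X ∩ Set.Ioc A (A + X), Rough N ((X : ℝ) ^ (1 / (ρ : ℝ))) n := by
  refine ⟨fun M m k κ δ hκ hκ1 hδ => ?_, fun a => ?_⟩
  · obtain ⟨c, hc, B, X₀, h⟩ := Pool.Agent.Helper269.uni_common (g := 2) M m k 2 κ δ hκ hκ1 hδ
    refine ⟨c, hc, B, X₀, fun X D hX hBD hDX N A S hN hS hSR hSc => ?_⟩
    have h1 := h X D hX hBD hDX (fun j => F (N j)) (fun j => R (N j)) (fun j => deg (N j))
      (fun j => nf (N j) (hN j)) (fun j => hR (N j)) A S hS (fun j n hn q hq hd => by
        obtain ⟨h2, h3⟩ := hSR j n hn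
        refine h3 q hq ?_
        rcases hd with hd | hd
        · exact Or.inl hd
        · exact Or.inr ((Nat.modEq_iff_dvd' h2.le).1 hd))
      (fun j => by
        rw [← expected_eq]
        exact hSc j)
    exact h1
  · obtain ⟨ρ, hρ, X₀, h⟩ := Pool.Agent.Helper269.uni_low (g := 2) 2 (2 * a)
    refine ⟨ρ, hρ, max X₀ 1, fun X A N hX hN hAN hNX => ⟨?_, fun n hn => ⟨hn.1.1, hn.1.2.2⟩⟩⟩
    have hX1 : 1 ≤ X := (le_max_right _ _).trans hX
    have hX0 : (0 : ℝ) < X := by exact_mod_cast hX1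
    have h1 := h X A ((le_max_left _ _).trans hX) (F N) (R N) (deg N) (nf N hN) (hR N) (fun n hn1 hn2 => by
      rw [prod_eval]
      push_cast
      have hnN : (n : ℝ) ≤ N := by exact_mod_cast (by omega : n ≤ N)
      have h2 : |((n : ℝ)) * ((n : ℝ) - N)| ≤ (N : ℝ) * N := by
        rw [abs_mul, abs_of_nonneg (Nat.cast_nonneg n), abs_of_nonpos (by linarith)]
        apply mul_le_mul hnN _ (by linarith) (Nat.cast_nonneg _)
        have : (0 : ℝ) ≤ n := Nat.cast_nonneg n
        linarith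
      refine h2.trans ?_
      rw [two_mul, Real.rpow_add hX0]
      exact mul_le_mul hNX hNX (Nat.cast_nonneg _) (by positivity))
    rw [← expected_eq] at h1
    refine h1.trans (Nat.cast_le.2 ?_)
    apply Set.ncard_le_ncard _ ((Set.finite_Ioc A (A + X)).subset Set.inter_subset_right)
    rintro n ⟨h2, h3, h4, h5⟩
    have hnN : n < N := by have := h2.2; omega
    have e : ((∏ i, F N i).eval (n : ℤ)).natAbs = n * (N - n) := by
      rw [prod_eval, Int.natAbs_mul, Int.natAbs_natCast]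
      congr 1
      omega
    have hn0 : n ≠ 0 := by have := h2.1; omega
    have hNn0 : N - n ≠ 0 := by omega
    refine ⟨⟨hnN, ?_, ?_⟩, h2⟩
    · rw [e] at h3
      rw [← ArithmeticFunction.cardFactors_mul hn0 hNn0, ArithmeticFunction.cardFactors_apply]
      exact h3
    · intro q hq hd
      apply h5 q hq
      rw [prod_eval]
      rcases hd with hd | hd
      · exact (Int.natCast_dvd_natCast.2 hd).mul_right _
      · refine Dvd.dvd.mul_left ?_ _
        have h6 : (q : ℤ) ∣ ((N - n : ℕ) : ℤ) := Int.natCast_dvd_natCast.2 hd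
        have h7 : ((N - n : ℕ) : ℤ) = -((n : ℤ) - N) := by omega
        rw [h7] at h6
        exact (dvd_neg).1 h6

end Pool.Agent.Results.MP_629a14_nt.CommonPatterns
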