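import Pool.Agent.Helper269.Uni
import Pool.Agent.Helper269.LinS
import Pool.Agent.W182.PW.Lin

/-!
# Common patterns in the sets of the Goldbach summands of almost all even numbers

Let `P(N, X)` be the set of the primes `p ∈ (X ^ (1/4), X]` for which `N - p` is a prime `> X ^ (1/4)`, and write
`E(N, X) = X ∏ (1 - ν(q) / q)` (product over the primes `q ≤ X`), where `ν(q) = 1` if `q ∣ N` and `ν(q) = 2` otherwise;
`E(N, X)` has the order of magnitude `X N / (φ(N) (log X) ^ 2)` predicted by Hardy and Littlewood.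
For all but at most `X / (log X) ^ U` even numbers `N ∈ (X, C X]` (the exceptional ones) the following holds, with
constants independent of `C` and `U`.
(1) `P(N, X)` has at least `δ₀ E(N, X)` elements.
(2) Arbitrary subsets `S_j ⊆ P(N_j, X)` of the relative density `δ`, for arbitrary non-exceptional `N_1, ..., N_M`,
have common difference vectors: for a positive proportion of the vectors `h ∈ {1, ..., D} ^ m` the set `S_j` contains
for every `P ⊆ {0, ..., k - 1} ^ m` with `0 ∈ P` the number of patterns `n + f · h`, `f ∈ P`, which is predicted for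
`N_j`, for all `j` at once, where `D` is arbitrary with `(log X) ^ B ≤ D ≤ X`. For `m = 1`: for a positive proportion
of the integers `d ≤ D` there are, for all `j` at once, as many progressions `p, p + d, ..., p + (k - 1) d ≤ X` of
primes as predicted, for which `N_j - p, ..., N_j - p - (k - 1) d` are also primes; `D` may be a power of `log X`.

The proof combines the lower bound for the number of the prime values of polynomials for almost all constant terms
(`Pool.Agent.Y843.AQ.sg_low`), made uniform in the individual `N` by shifting the variable, with the theorem of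
`Pool.Agent.X26.MC` on common patterns in sets of integers without small prime factors (the starting library).
-/

set_option autoImplicit false

namespace Pool.Agent.Results.MP_629a14_nt.PatternsAlmostAll

open Filter

/-- The primes `p ∈ (X ^ (1 / 4), X]`, `p < N`, for which `N - p` is a prime larger than `X ^ (1 / 4)`. -/
def Primes (N X : ℕ) : Set ℕ :=
  {p | p.Prime ∧ p ≤ X ∧ (X : ℝ) ^ (1 / 4 : ℝ) < p ∧ p < N ∧ (N - p).Prime ∧ (X : ℝ) ^ (1 / 4 : ℝ) < ((N - p : ℕ) : ℝ)}

/-- The integer `f · h = f 0 * h 0 + f 1 * h 1 + ...`. -/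
def dot {m : ℕ} (f h : Fin m → ℕ) : ℕ := ∑ i, f i * h i

/-- The number of the residues `u` modulo `q` such that `w ≡ 0` or `w ≡ N` modulo `q` for some `w = u + f · h`,
`f ∈ P`. -/
noncomputable def omega (N : ℕ) {m : ℕ} (h : Fin m → ℕ) (P : Finset (Fin m → ℕ)) (q : ℕ) : ℕ :=
  {u : ℕ | 1 ≤ u ∧ u ≤ q ∧ ∃ f ∈ P, q ∣ u + dot f h ∨ u + dot f h ≡ N [MOD q]}.ncard

/-- `X` times the product of the `1 - w q / q` over the primes `q ≤ X`. -/
noncomputable def expected (w : ℕ → ℕ) (X : ℕ) : ℝ :=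
  X * ∏ q ∈ (Finset.Icc 1 X).filter Nat.Prime, (1 - (w q : ℝ) / q)

/-- `1` if `q ∣ N`, and `2` otherwise. -/
def nu (N q : ℕ) : ℕ := if q ∣ N then 1 else 2

/-- The number of the `n ∈ S` such that all the `n + f · h`, `f ∈ P`, are in `S`. -/
noncomputable def count (S : Set ℕ) {m : ℕ} (h : Fin m → ℕ) (P : Finset (Fin m → ℕ)) : ℕ :=
  {n : ℕ | n ∈ S ∧ ∀ f ∈ P, n + dot f h ∈ S}.ncard

/-- For all `P ⊆ {0, ..., k - 1} ^ m` with `0 ∈ P`: the integers `f · h`, `f ∈ P`, are different, and for all `j`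
the conditions modulo the primes are solvable and the set `S j` contains at least `c` times the expected number of
the patterns `n + f · h`, `f ∈ P`. -/
def Common {M m : ℕ} (N : Fin M → ℕ) (c : ℝ) (k X : ℕ) (S : Fin M → Set ℕ) (h : Fin m → ℕ) : Prop :=
  ∀ P : Finset (Fin m → ℕ), (∀ f ∈ P, ∀ i, f i < k) → (fun _ => 0) ∈ P →
    Set.InjOn (fun f => dot f h) (P : Set (Fin m → ℕ)) ∧
      ∀ j, (∀ q : ℕ, q.Prime → omega (N j) h P q < q) ∧
        c * expected (omega (N j) h P) X ≤ (count (S j) h P : ℝ)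

/-- the polynomials -/
noncomputable def F (N : ℕ) (i : Fin 2) : Polynomial ℤ :=
  if i = 0 then Polynomial.X else Pool.Agent.W182.PW.lin 1 (-(N : ℤ))

/-- the relation -/
def R (N q n : ℕ) : Prop := q ∣ n ∨ n ≡ N [MOD q]

theorem F_eval (N : ℕ) (x : ℤ) : (F N 0).eval x = x ∧ (F N 1).eval x = x - N := by
  constructor
  · unfold F
    rw [if_pos rfl, Polynomial.eval_X]
  · unfold F
    rw [if_neg (by decide), Pool.Agent.W182.PW.lin_eval]
    push_cast
    ring

theorem prod_eval (N : ℕ) (x : ℤ) : (∏ i, F N i).eval x = x * (x - N) := by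
  rw [Polynomial.eval_prod, Fin.prod_univ_two, (F_eval N x).1, (F_eval N x).2]

theorem hR (N : ℕ) : ∀ q n : ℕ, 1 ≤ n → (R N q n ↔ ∃ i, (q : ℤ) ∣ (F N i).eval (n : ℤ)) := by
  intro q n _
  unfold R
  constructor
  · rintro (h | h)
    · exact ⟨0, by rw [(F_eval N n).1]; exact Int.natCast_dvd_natCast.2 h⟩
    · refine ⟨1, ?_⟩
      rw [(F_eval N n).2]
      exact (Int.natCast_modEq_iff.2 h).symm.dvd
  · rintro ⟨i, hi⟩
    fin_cases i
    · have h2 : (q : ℤ) ∣ (F N 0).eval (n : ℤ) := hi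
      rw [(F_eval N n).1] at h2
      exact Or.inl (Int.natCast_dvd_natCast.1 h2)
    · have h2 : (q : ℤ) ∣ (F N 1).eval (n : ℤ) := hi
      rw [(F_eval N n).2] at h2
      exact Or.inr (Int.natCast_modEq_iff.1 (Int.modEq_iff_dvd.2 h2).symm)

theorem deg (N : ℕ) : (∏ i, F N i).natDegree ≤ 2 := by
  refine (Polynomial.natDegree_prod_le _ _).trans ?_
  rw [Fin.sum_univ_two]
  have h0 : (F N 0).natDegree ≤ 1 := by
    unfold F
    rw [if_pos rfl]
    exact Polynomial.natDegree_X_le
  have h1 : (F N 1).natDegree ≤ 1 := by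
    unfold F Pool.Agent.W182.PW.lin
    rw [if_neg (by decide)]
    exact Polynomial.natDegree_linear_le
  omega

theorem nf (N : ℕ) (hN : Even N) : Pool.Agent.X26.GP.NF (∏ i, F N i) := by
  intro q hq
  rcases eq_or_ne q 2 with h2 | h2
  · refine ⟨1, fun h => ?_⟩
    rw [prod_eval, h2, one_mul] at h
    obtain ⟨a, ha⟩ := hN
    obtain ⟨b, hb⟩ := h
    push_cast at hb
    omega
  · by_cases hd : (q : ℤ) ∣ 1 * (1 - (N : ℤ))
    · refine ⟨2, fun h => ?_⟩
      rw [prod_eval] at h
      have hp := Nat.prime_iff_prime_int.1 hq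
      rcases hp.dvd_or_dvd h with h3 | h3
      · have h4 : q ∣ 2 := by exact_mod_cast h3
        exact h2 ((Nat.prime_dvd_prime_iff_eq hq Nat.prime_two).1 h4)
      · rw [one_mul] at hd
        have h4 : (q : ℤ) ∣ 1 := by
          have h5 := dvd_sub h3 hd
          have h6 : (2 : ℤ) - N - (1 - N) = 1 := by ring
          rwa [h6] at h5
        have h5 : q ∣ 1 := by exact_mod_cast h4
        exact hq.one_lt.ne' (Nat.dvd_one.1 h5)
    · refine ⟨1, fun h => hd ?_⟩
      rwa [prod_eval] at h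

theorem nu_eq (N q : ℕ) (hq : q.Prime) : Pool.Agent.Helper269.nuR (R N) q = nu N q := by
  unfold Pool.Agent.Helper269.nuR nu R
  have hq0 := hq.pos
  by_cases hd : q ∣ N
  · rw [if_pos hd]
    have e : {u : ℕ | 1 ≤ u ∧ u ≤ q ∧ (q ∣ u ∨ u ≡ N [MOD q])} = {q} := by
      ext u
      simp only [Set.mem_ofPred_eq, Set.mem_singleton_iff]
      constructor
      · rintro ⟨h1, h2, h3⟩
        have h4 : q ∣ u := by
          rcases h3 with h3 | h3
          · exact h3
          · exact (Nat.ModEq.dvd_iff h3 dvd_rfl).2 hd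
        exact le_antisymm h2 (Nat.le_of_dvd (by omega) h4)
      · intro h
        rw [h]
        exact ⟨hq0, le_rfl, Or.inl dvd_rfl⟩
    rw [e, Set.ncard_singleton]
  · rw [if_neg hd]
    have hm : N % q ≠ 0 := fun h => hd (Nat.dvd_of_mod_eq_zero h)
    have hml : N % q < q := Nat.mod_lt _ hq0
    have e : {u : ℕ | 1 ≤ u ∧ u ≤ q ∧ (q ∣ u ∨ u ≡ N [MOD q])} = {q, N % q} := by
      ext u
      simp only [Set.mem_ofPred_eq, Set.mem_insert_iff, Set.mem_singleton_iff]
      constructor
      · rintro ⟨h1, h2, h3⟩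
        rcases h3 with h3 | h3
        · exact Or.inl (le_antisymm h2 (Nat.le_of_dvd (by omega) h3))
        · right
          have h4 : u ≠ q := by
            intro h
            rw [h] at h3
            have h5 : q ∣ N := (Nat.ModEq.dvd_iff h3 dvd_rfl).1 dvd_rfl
            exact hd h5
          have h5 : u % q = N % q := h3
          rwa [Nat.mod_eq_of_lt (by omega)] at h5
      · rintro (h | h)
        · rw [h]
          exact ⟨hq0, le_rfl, Or.inl dvd_rfl⟩
        · rw [h]
          exact ⟨by omega, hml.le, Or.inr (Nat.mod_modEq N q)⟩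
    rw [e, Set.ncard_pair (by omega)]

theorem expected_eq (N X : ℕ) :
    expected (nu N) X = X * Pool.Agent.X69.Ric.prR (Pool.Agent.Helper269.nuR (R N)) X := by
  unfold expected Pool.Agent.X69.Ric.prR
  congr 1
  apply Finset.prod_congr rfl
  intro q hq
  rw [nu_eq N q (Finset.mem_filter.1 hq).2]

/-- **Common patterns for almost all even numbers.** -/
theorem result : ∃ δ₀ : ℝ, 0 < δ₀ ∧ ∀ (M m k : ℕ) (δ : ℝ), 0 < δ → ∃ c : ℝ, 0 < c ∧ ∃ B : ℕ,
    ∀ C U : ℕ, 1 ≤ C → ∃ X₀ : ℕ, ∀ X : ℕ, X₀ ≤ X →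
      ∃ Ex : Finset ℕ, (Ex.card : ℝ) ≤ X / Real.log X ^ U ∧
        (∀ N : ℕ, Even N → X < N → N ≤ C * X → N ∉ Ex → δ₀ * expected (nu N) X ≤ ((Primes N X).ncard : ℝ)) ∧
        ∀ N : Fin M → ℕ, (∀ j, Even (N j) ∧ X < N j ∧ N j ≤ C * X ∧ N j ∉ Ex) →
          ∀ S : Fin M → Set ℕ, (∀ j, S j ⊆ Primes (N j) X) →
            (∀ j, δ * ((Primes (N j) X).ncard : ℝ) ≤ ((S j).ncard : ℝ)) →
            ∀ D : ℕ, Real.log X ^ B ≤ D → D ≤ X →
              c * (D : ℝ) ^ m ≤ ({h : Fin m → ℕ | (∀ i, 1 ≤ h i ∧ h i ≤ D) ∧ Common N c k X S h}.ncard : ℝ) := by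
  obtain ⟨δ₀, hδ₀, h0⟩ := Pool.Agent.Helper269.lin_all (s := 1) (fun _ => -1) (fun _ => Or.inr rfl)
  refine ⟨δ₀, hδ₀, fun M m k δ hδ => ?_⟩
  obtain ⟨c, hc, B, X₁, h⟩ := Pool.Agent.Helper269.uni_common (g := 2) M m k 2 (1 / 4) (δ * δ₀) (by norm_num)
    (by norm_num) (by positivity)
  refine ⟨c, hc, B, fun C U hC => ?_⟩
  obtain ⟨N0, h1⟩ := h0 C U hC
  refine ⟨max N0 X₁, fun X hX => ?_⟩
  obtain ⟨E, hE, h2⟩ := h1 X ((le_max_left _ _).trans hX)
  have hlow : ∀ N : ℕ, Even N → X < N → N ≤ C * X → N ∉ E.image (fun k => k 0) →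
      δ₀ * expected (nu N) X ≤ ((Primes N X).ncard : ℝ) := by
    intro N hev hN1 hN2 hN3
    have h3 := h2 (fun _ => N) (fun _ => hN2) (fun hmem => hN3 (Finset.mem_image.2 ⟨_, hmem, rfl⟩))
      (fun n hn1 hn2 _ => by omega) (fun q hq => by
        rcases eq_or_ne q 2 with hq2 | hq2
        · refine ⟨1, ?_⟩
          rw [hq2]
          rintro (h4 | ⟨_, h4⟩)
          · omega
          · obtain ⟨b, hb⟩ := hev
            have h5 : ((2 : ℕ) : ℤ) ∣ -1 * ((1 : ℕ) : ℤ) + (N : ℤ) := h4
            omega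
        · have hq3 : 2 < q := lt_of_le_of_ne hq.two_le (Ne.symm hq2)
          by_cases hd : (q : ℤ) ∣ -1 * ((1 : ℕ) : ℤ) + (N : ℤ)
          · refine ⟨2, ?_⟩
            rintro (h4 | ⟨_, h4⟩)
            · exact absurd (Nat.le_of_dvd (by omega) h4) (by omega)
            · have h5 := dvd_sub hd h4
              have h6 : -1 * ((1 : ℕ) : ℤ) + (N : ℤ) - (-1 * ((2 : ℕ) : ℤ) + (N : ℤ)) = 1 := by
                push_cast
                ring
              rw [h6] at h5
              exact absurd (Int.natCast_dvd_natCast.1 (by exact_mod_cast h5 : (q : ℤ) ∣ ((1 : ℕ) : ℤ)))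
                (fun h7 => hq.one_lt.ne' (Nat.dvd_one.1 h7))
          · refine ⟨1, ?_⟩
            rintro (h4 | ⟨_, h4⟩)
            · exact hq.one_lt.ne' (Nat.dvd_one.1 h4)
            · exact hd h4)
    have e1 : Pool.Agent.Helper269.RL (fun _ : Fin 1 => (-1 : ℤ)) (fun _ => N) = R N := by
      funext q n
      unfold Pool.Agent.Helper269.RL R
      rw [eq_iff_iff]
      apply or_congr Iff.rfl
      constructor
      · rintro ⟨_, h4⟩
        have h5 : (q : ℤ) ∣ (N : ℤ) - n := by
          have e : -1 * (n : ℤ) + (N : ℤ) = (N : ℤ) - n := by ring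
          rwa [e] at h4
        exact Int.natCast_modEq_iff.1 (Int.modEq_iff_dvd.2 h5)
      · intro h4
        refine ⟨0, ?_⟩
        have h5 := (Int.natCast_modEq_iff.2 h4).dvd
        have e : -1 * (n : ℤ) + (N : ℤ) = (N : ℤ) - n := by ring
        rwa [e]
    rw [e1, ← expected_eq] at h3
    refine h3.trans (Nat.cast_le.2 ?_)
    apply Set.ncard_le_ncard _ ((Set.finite_Iic X).subset fun n hn => hn.2.1)
    rintro n ⟨h4, h5, h6, h7⟩
    have e : -1 * (n : ℤ) + (N : ℤ) = ((N - n : ℕ) : ℤ) := by omega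
    have h8 := h7 0
    rw [e, Int.toNat_natCast, Int.cast_natCast] at h8
    exact ⟨h4, h5, h6, by omega, h8.1, h8.2⟩
  refine ⟨E.image (fun k => k 0), ?_, hlow, fun N hN S hS hSc D hBD hDX => ?_⟩
  · calc ((E.image (fun k => k 0)).card : ℝ) ≤ E.card := by exact_mod_cast Finset.card_image_le
      _ ≤ (X : ℝ) ^ 1 / Real.log X ^ U := hE
      _ = _ := by rw [pow_one]
  · have h3 := h X D ((le_max_right _ _).trans hX) hBD hDX (fun j => F (N j)) (fun j => R (N j))
      (fun j => deg (N j)) (fun j => nf (N j) (hN j).1) (fun j => hR (N j)) (fun _ => 0) S (fun j n hn => by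
        obtain ⟨h4, h5, -⟩ := hS j hn
        exact ⟨h4.pos, by omega⟩) (fun j n hn q hq hd => by
        obtain ⟨h4, h5, h6, h7, h8, h9⟩ := hS j hn
        rcases hd with hd | hd
        · rw [(Nat.prime_dvd_prime_iff_eq hq h4).1 hd]
          exact h6
        · have h10 : q ∣ N j - n := (Nat.modEq_iff_dvd' h7.le).1 hd
          rw [(Nat.prime_dvd_prime_iff_eq hq h8).1 h10]
          exact h9) (fun j => by
        rw [← expected_eq]
        obtain ⟨h4, h5, h6, h7⟩ := hN j
        calc δ * δ₀ * expected (nu (N j)) X = δ * (δ₀ * expected (nu (N j)) X) := by ring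
          _ ≤ δ * ((Primes (N j) X).ncard : ℝ) := mul_le_mul_of_nonneg_left (hlow _ h4 h5 h6 h7) hδ.le
          _ ≤ _ := hSc j)
    exact h3

end Pool.Agent.Results.MP_629a14_nt.PatternsAlmostAll
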