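import Pool.Agent.R498.MP.Gold

set_option autoImplicit false

/-!
# Prime plus almost prime, along strings of consecutive primes, for every large even number

For all `m` and squarefree `q` there are `K`, `B` and `δ > 0`, and for every `A` an `r`, such that for every set `S`
of at least `K` nonnegative integers and EVERY large even number `M` the following holds for all `N` with
`M ^ (1 / A) ≤ N < M / 2` and every class `c` modulo `q` for which `c (M - c)` is prime to `q`: there are a subset
`H` of `S` with at least `m` elements and at least `N / (log N) ^ B` integers `n` in `(N, 2 N]` such that the primes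
in `[n, n + max S]` are exactly the numbers `p = n + h`, `h ∈ H`, all of them are `≡ c` modulo `q`, and all the
numbers `M - p` have at most `r` prime factors, all of them at least `N ^ δ`.

The proof specialises `Pool.Agent.R498.MP.gold_stringsM` of the starting library.
-/

namespace Pool.Agent.Results.MP_629a14_nt.StringsOfConsecutivePrimes

open Filter

/-- `n` has at most `r` prime factors, counted with multiplicity, all of them at least `w`. -/
def AlmostPrime (r : ℕ) (w : ℝ) (n : ℕ) : Prop :=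
  n.primeFactorsList.length ≤ r ∧ ∀ l : ℕ, l.Prime → l ∣ n → w ≤ l

/-- The primes in the interval `[x, x + C]` are exactly the numbers `x + h`, `h ∈ H`. -/
def PrimePattern (C : ℕ) (H : Finset ℕ) (x : ℕ) : Prop := ∀ y ≤ C, (x + y).Prime ↔ y ∈ H

/-- **Prime plus almost prime, along strings of consecutive primes, for every large even number.** -/
theorem result (q : ℕ) (hq : Squarefree q) (m : ℕ) :
    ∃ (K B : ℕ) (δ : ℝ), 0 < δ ∧ ∀ A : ℕ, ∃ r : ℕ, ∀ S : Finset ℕ, K ≤ S.card →
      ∀ᶠ M : ℕ in atTop, Even M → ∀ N : ℕ, M ≤ N ^ A → 2 * N < M →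
      ∀ c : ℕ, IsCoprime ((c : ℤ) * ((M : ℤ) - c)) (q : ℤ) →
      ∃ H ⊆ S, m ≤ H.card ∧ ∃ T : Finset ℕ, (N : ℝ) ≤ Real.log N ^ B * T.card ∧
        ∀ n ∈ T, N < n ∧ n + S.sup id ≤ 2 * N ∧ PrimePattern (S.sup id) H n ∧
          ∀ h ∈ H, n + h ≡ c [MOD q] ∧ AlmostPrime r ((N : ℝ) ^ δ) (M - (n + h)) := by
  obtain ⟨K, B, δ, hδ, hmain⟩ := Pool.Agent.R498.MP.gold_stringsM q hq m
  refine ⟨K, B, δ, hδ, fun A => ?_⟩
  obtain ⟨r, hr⟩ := hmain A
  refine ⟨r, fun S hS => ?_⟩
  filter_upwards [hr S hS] with M hM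
  intro hev N hMN hNM c hc
  obtain ⟨H, hH, hHm, T, hT, hmem⟩ := hM N hMN hev hNM c hc
  refine ⟨H, hH, hHm, T, hT, fun n hn => ?_⟩
  obtain ⟨h1, h2, h3, h4⟩ := hmem n hn
  refine ⟨h1, h2, h3, fun h hh => ?_⟩
  obtain ⟨h5, h6⟩ := h4 h hh
  exact ⟨h5, h6.1, h6.2⟩

end Pool.Agent.Results.MP_629a14_nt.StringsOfConsecutivePrimes
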