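import Pool.Agent.Helper269.Uni
import Pool.Agent.W182.PW.Lin

/-!
# Common patterns in dense sets of prime constellations, uniformly in the tuples

For an admissible tuple `a = (a_1, ..., a_s)` of natural numbers of arbitrary size let `w(q)` be the number of the
residue classes modulo `q` occupied by the `a_i`, and write `E(a, X) = X ∏ (1 - w(q) / q)` (product over the primes
`q ≤ X`); this has the order of magnitude predicted by Hardy and Littlewood for the number of the `n ≤ X` with all
`n + a_i` prime, if `X` is large in terms of `a`.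
(1) Let `a^1, ..., a^M` be arbitrary admissible tuples and let `S_j` be an arbitrary set of integers `n` in an
arbitrary interval of length `X`, for which no number `n + a^j_i` has a prime factor up to `X ^ κ` (for example an
arbitrary set of `n > X ^ κ` for which all `n + a^j_i` are prime). If `S_j` has at least `δ E(a^j, X)` elements, for
all `j`, then the `S_j` have common difference vectors: for a positive proportion of the vectors
`h ∈ {1, ..., D} ^ m` the set `S_j` contains for every `P ⊆ {0, ..., k - 1} ^ m` with `0 ∈ P` the number of patterns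
`n + f · h`, `f ∈ P`, which is predicted for `a^j`, for all `j` at once; here `D` is arbitrary with
`(log X) ^ B ≤ D ≤ X`, and all constants are independent of the tuples. For `m = 1`: a positive proportion of the
integers up to `D` are differences of `k`-term arithmetic progressions in all the sets `S_j`.
(2) The `n` in an arbitrary interval `(A, A + X]` for which the product of the `n + a_i` has at most `ρ` prime factors,
all of them larger than `X ^ (1 / ρ)`, are such a set, if all the `A + X + a_i` are at most `X ^ t`, so that (1) is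
unconditional for their dense subsets, in short intervals, and uniformly in the tuple.

The proof specialises the theorems of `Pool.Agent.X26` of the starting library.
-/

set_option autoImplicit false

namespace Pool.Agent.Results.MP_68a45e_nt.CommonPatterns

open Filter

/-- For every prime `q` some `n` makes all the `n + a i` prime to `q`. -/
def Admissible {s : ℕ} (a : Fin s → ℕ) : Prop := ∀ q : ℕ, q.Prime → ∃ n : ℕ, ∀ i, ¬ q ∣ n + a i

/-- All prime factors of the `n + a i` are larger than `y`. -/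
def Rough {s : ℕ} (a : Fin s → ℕ) (y : ℝ) (n : ℕ) : Prop := ∀ q : ℕ, q.Prime → (∃ i, q ∣ n + a i) → y < q

/-- The integer `f · h = f 0 * h 0 + f 1 * h 1 + ...`. -/
def dot {m : ℕ} (f h : Fin m → ℕ) : ℕ := ∑ i, f i * h i

/-- The number of the residues `u` modulo `q` such that `q` divides some `u + f · h + a i`, `f ∈ P`. -/
noncomputable def omega {s : ℕ} (a : Fin s → ℕ) {m : ℕ} (h : Fin m → ℕ) (P : Finset (Fin m → ℕ)) (q : ℕ) : ℕ :=
  {u : ℕ | 1 ≤ u ∧ u ≤ q ∧ ∃ f ∈ P, ∃ i, q ∣ u + dot f h + a i}.ncard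

/-- `X` times the product of the `1 - w q / q` over the primes `q ≤ X`. -/
noncomputable def expected (w : ℕ → ℕ) (X : ℕ) : ℝ :=
  X * ∏ q ∈ (Finset.Icc 1 X).filter Nat.Prime, (1 - (w q : ℝ) / q)

/-- The number of the residue classes modulo `q` occupied by the `a i`. -/
def classes {s : ℕ} (a : Fin s → ℕ) (q : ℕ) : ℕ := (Finset.univ.image (fun i => a i % q)).card

/-- The number of the `n ∈ S` such that all the `n + f · h`, `f ∈ P`, are in `S`. -/
noncomputable def count (S : Set ℕ) {m : ℕ} (h : Fin m → ℕ) (P : Finset (Fin m → ℕ)) : ℕ :=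
  {n : ℕ | n ∈ S ∧ ∀ f ∈ P, n + dot f h ∈ S}.ncard

/-- For all `P ⊆ {0, ..., k - 1} ^ m` with `0 ∈ P`: the integers `f · h`, `f ∈ P`, are different, and for all `j`
the conditions modulo the primes are solvable and the set `S j` contains at least `c` times the expected number of
the patterns `n + f · h`, `f ∈ P`. -/
def Common {s M m : ℕ} (a : Fin M → Fin s → ℕ) (c : ℝ) (k X : ℕ) (S : Fin M → Set ℕ) (h : Fin m → ℕ) : Prop :=
  ∀ P : Finset (Fin m → ℕ), (∀ f ∈ P, ∀ i, f i < k) → (fun _ => 0) ∈ P →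
    Set.InjOn (fun f => dot f h) (P : Set (Fin m → ℕ)) ∧
      ∀ j, (∀ q : ℕ, q.Prime → omega (a j) h P q < q) ∧
        c * expected (omega (a j) h P) X ≤ (count (S j) h P : ℝ)

/-- The `n` for which the product of the `n + a i` has at most `ρ` prime factors, counted with multiplicity, all of
them larger than `X ^ (1 / ρ)`. -/
def Almost {s : ℕ} (a : Fin s → ℕ) (ρ X : ℕ) : Set ℕ :=
  {n | ArithmeticFunction.cardFactors (∏ i, (n + a i)) ≤ ρ ∧
    ∀ q : ℕ, q.Prime → (∃ i, q ∣ n + a i) → (X : ℝ) ^ (1 / (ρ : ℝ)) < q}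

/-- the polynomials -/
noncomputable def F {s : ℕ} (a : Fin s → ℕ) (i : Fin s) : Polynomial ℤ := Pool.Agent.W182.PW.lin 1 (a i : ℤ)

/-- the relation -/
def R {s : ℕ} (a : Fin s → ℕ) (q n : ℕ) : Prop := ∃ i, q ∣ n + a i

theorem F_eval {s : ℕ} (a : Fin s → ℕ) (i : Fin s) (n : ℕ) : (F a i).eval (n : ℤ) = ((n + a i : ℕ) : ℤ) := by
  unfold F
  rw [Pool.Agent.W182.PW.lin_eval]
  push_cast
  ring

theorem prod_eval {s : ℕ} (a : Fin s → ℕ) (n : ℕ) : (∏ i, F a i).eval (n : ℤ) = ((∏ i, (n + a i) : ℕ) : ℤ) := by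
  rw [Polynomial.eval_prod, Nat.cast_prod]
  exact Finset.prod_congr rfl fun i _ => F_eval a i n

theorem hR {s : ℕ} (a : Fin s → ℕ) : ∀ q n : ℕ, 1 ≤ n → (R a q n ↔ ∃ i, (q : ℤ) ∣ (F a i).eval (n : ℤ)) := by
  intro q n _
  unfold R
  apply exists_congr
  intro i
  rw [F_eval, Int.natCast_dvd_natCast]

theorem deg {s : ℕ} (a : Fin s → ℕ) : (∏ i, F a i).natDegree ≤ s := by
  refine (Polynomial.natDegree_prod_le _ _).trans ?_
  refine (Finset.sum_le_sum (g := fun _ => 1) fun i _ => ?_).trans (by simp)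
  unfold F Pool.Agent.W182.PW.lin
  exact Polynomial.natDegree_linear_le

theorem nf {s : ℕ} (a : Fin s → ℕ) (ha : Admissible a) : Pool.Agent.X26.GP.NF (∏ i, F a i) := by
  intro q hq
  obtain ⟨n, hn⟩ := ha q hq
  refine ⟨n, fun h => ?_⟩
  rw [prod_eval] at h
  have h1 : q ∣ ∏ i, (n + a i) := by exact_mod_cast h
  obtain ⟨i, -, hi⟩ := (Prime.dvd_finsetProd_iff hq.prime _).1 h1
  exact hn i hi

theorem nu_eq {s : ℕ} (a : Fin s → ℕ) (q : ℕ) (hq : q.Prime) :
    Pool.Agent.Helper269.nuR (R a) q = classes a q := by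
  unfold Pool.Agent.Helper269.nuR classes R
  have hq0 := hq.pos
  have e : {u : ℕ | 1 ≤ u ∧ u ≤ q ∧ ∃ i, q ∣ u + a i} =
      (((Finset.univ.image (fun i => a i % q)).image (fun x => q - x) : Finset ℕ) : Set ℕ) := by
    ext u
    simp only [Set.mem_ofPred_eq, Finset.coe_image, Finset.coe_univ, Set.image_univ, Set.mem_image, Set.mem_range,
      exists_exists_eq_and]
    constructor
    · rintro ⟨h1, h2, i, hi⟩
      refine ⟨i, ?_⟩
      have h3 : a i % q < q := Nat.mod_lt _ hq0
      have h4 : q ∣ u + a i % q := by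
        have h5 : q ∣ (u + a i % q) + q * (a i / q) := by
          rw [add_assoc, Nat.mod_add_div]
          exact hi
        exact (Nat.dvd_add_left (dvd_mul_right q _)).1 h5
      obtain ⟨t, ht⟩ := h4
      have h6 : t = 1 := by
        rcases Nat.lt_or_ge t 2 with h7 | h7
        · rcases Nat.eq_zero_or_pos t with h8 | h8
          · rw [h8] at ht
            omega
          · omega
        · have : q * 2 ≤ q * t := Nat.mul_le_mul_left q h7
          omega
      rw [h6] at ht
      omega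
    · rintro ⟨i, hi⟩
      have h3 : a i % q < q := Nat.mod_lt _ hq0
      refine ⟨by omega, by omega, i, ?_⟩
      have h4 : u + a i = q + q * (a i / q) := by
        have := Nat.mod_add_div (a i) q
        omega
      rw [h4]
      exact (dvd_refl q).add (dvd_mul_right q _)
  rw [e, Set.ncard_coe_finset, Finset.card_image_of_injOn]
  intro x hx y hy hxy
  have hx1 : x < q := by
    obtain ⟨i, -, hi⟩ := Finset.mem_image.1 (Finset.mem_coe.1 hx)
    rw [← hi]
    exact Nat.mod_lt _ hq0
  have hy1 : y < q := by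
    obtain ⟨i, -, hi⟩ := Finset.mem_image.1 (Finset.mem_coe.1 hy)
    rw [← hi]
    exact Nat.mod_lt _ hq0
  have hxy' : q - x = q - y := hxy
  omega

theorem expected_eq {s : ℕ} (a : Fin s → ℕ) (X : ℕ) :
    expected (classes a) X = X * Pool.Agent.X69.Ric.prR (Pool.Agent.Helper269.nuR (R a)) X := by
  unfold expected Pool.Agent.X69.Ric.prR
  congr 1
  apply Finset.prod_congr rfl
  intro q hq
  rw [nu_eq a q (Finset.mem_filter.1 hq).2]

/-- **Common patterns.** -/
theorem result (s : ℕ) :
    (∀ (M m k : ℕ) (κ δ : ℝ), 0 < κ → κ ≤ 1 → 0 < δ →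
      ∃ c : ℝ, 0 < c ∧ ∃ B X₀ : ℕ, ∀ X D : ℕ, X₀ ≤ X → Real.log X ^ B ≤ D → D ≤ X →
      ∀ (a : Fin M → Fin s → ℕ) (A : Fin M → ℕ) (S : Fin M → Set ℕ), (∀ j, Admissible (a j)) →
        (∀ j, S j ⊆ Set.Ioc (A j) (A j + X)) → (∀ j, ∀ n ∈ S j, Rough (a j) ((X : ℝ) ^ κ) n) →
        (∀ j, δ * expected (classes (a j)) X ≤ ((S j).ncard : ℝ)) →
        c * (D : ℝ) ^ m ≤ ({h : Fin m → ℕ | (∀ i, 1 ≤ h i ∧ h i ≤ D) ∧ Common a c k X S h}.ncard : ℝ)) ∧
    ∀ t : ℝ, ∃ ρ : ℕ, 1 ≤ ρ ∧ ∃ X₀ : ℕ, ∀ (X A : ℕ) (a : Fin s → ℕ), X₀ ≤ X → Admissible a →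
        (∀ i, ((A + X + a i : ℕ) : ℝ) ≤ (X : ℝ) ^ t) →
        1 / 2 * expected (classes a) X ≤ ((Almost a ρ X ∩ Set.Ioc A (A + X)).ncard : ℝ) ∧
        ∀ n ∈ Almost a ρ X ∩ Set.Ioc A (A + X), Rough a ((X : ℝ) ^ (1 / (ρ : ℝ))) n := by
  refine ⟨fun M m k κ δ hκ hκ1 hδ => ?_, fun t => ?_⟩
  · obtain ⟨c, hc, B, X₀, h⟩ := Pool.Agent.Helper269.uni_common (g := s) M m k s κ δ hκ hκ1 hδ
    refine ⟨c, hc, B, X₀, fun X D hX hBD hDX a A S ha hS hSR hSc => ?_⟩
    have h1 := h X D hX hBD hDX (fun j => F (a j)) (fun j => R (a j)) (fun j => deg (a j))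
      (fun j => nf (a j) (ha j)) (fun j => hR (a j)) A S hS (fun j n hn q hq hd => hSR j n hn q hq hd)
      (fun j => by
        rw [← expected_eq]
        exact hSc j)
    exact h1
  · obtain ⟨ρ, hρ, X₀, h⟩ := Pool.Agent.Helper269.uni_low (g := s) s (t * s)
    refine ⟨ρ, hρ, max X₀ 1, fun X A a hX ha hb => ⟨?_, fun n hn => hn.1.2⟩⟩
    have hX1 : 1 ≤ X := (le_max_right _ _).trans hX
    have hX0 : (0 : ℝ) < X := by exact_mod_cast hX1
    have h1 := h X A ((le_max_left _ _).trans hX) (F a) (R a) (deg a) (nf a ha) (hR a) (fun n hn1 hn2 => by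
      rw [prod_eval, Int.cast_natCast, abs_of_nonneg (Nat.cast_nonneg _), Nat.cast_prod, Real.rpow_mul hX0.le,
        Real.rpow_natCast]
      calc ∏ i, ((n + a i : ℕ) : ℝ) ≤ ∏ _i : Fin s, (X : ℝ) ^ t := by
            apply Finset.prod_le_prod (fun i _ => Nat.cast_nonneg _)
            intro i _
            refine le_trans ?_ (hb i)
            exact_mod_cast (by omega : n + a i ≤ A + X + a i)
        _ = ((X : ℝ) ^ t) ^ s := by simp)
    rw [← expected_eq] at h1
    refine h1.trans (Nat.cast_le.2 ?_)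
    apply Set.ncard_le_ncard _ ((Set.finite_Ioc A (A + X)).subset Set.inter_subset_right)
    rintro n ⟨h2, h3, h4, h5⟩
    rw [prod_eval, Int.natAbs_natCast] at h3
    refine ⟨⟨?_, ?_⟩, h2⟩
    · rw [ArithmeticFunction.cardFactors_apply]
      exact h3
    · rintro q hq ⟨i, hi⟩
      apply h5 q hq
      rw [prod_eval, Int.natCast_dvd_natCast]
      exact hi.trans (Finset.dvd_prod_of_mem (fun i => n + a i) (Finset.mem_univ i))

end Pool.Agent.Results.MP_68a45e_nt.CommonPatterns
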