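import Pool.Agent.Helper269.Uni
import Pool.Agent.Helper269.LinS
import Pool.Agent.W182.PW.Lin

/-!
# Common patterns in the sets of the prime constellations of almost all tuples

For a tuple `a = (a_1, ..., a_s)` of natural numbers let `P(a, X)` be the set of the primes `p ∈ (X ^ (1/4), X]` for
which all the `p + a_i` are primes, and write `E(a, X) = X ∏ (1 - w(q) / q)` (product over the primes `q ≤ X`), where
`w(q)` is the number of the residue classes modulo `q` occupied by `0, a_1, ..., a_s`; this is the order of magnitude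
predicted by Hardy and Littlewood. The tuple is admissible if `w(q) < q` for all primes `q`.
For all but at most `X ^ s / (log X) ^ U` tuples `a ∈ {0, ..., C X} ^ s` (the exceptional ones) the following holds for
the admissible ones, with constants independent of `C` and `U`.
(1) `P(a, X)` has at least `δ₀ E(a, X)` elements.
(2) Arbitrary subsets `S_j ⊆ P(a^j, X)` of the relative density `δ`, for arbitrary admissible non-exceptional tuples
`a^1, ..., a^M`, have common difference vectors: for a positive proportion of the vectors `h ∈ {1, ..., D} ^ m` the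
set `S_j` contains for every `P ⊆ {0, ..., k - 1} ^ m` with `0 ∈ P` the number of patterns `n + f · h`, `f ∈ P`, which
is predicted for `a^j`, for all `j` at once, where `D` is arbitrary with `(log X) ^ B ≤ D ≤ X`. For `m = 1`: for a
positive proportion of the integers `d ≤ D` there are, for all `j` at once, as many progressions
`p, p + d, ..., p + (k - 1) d ≤ X` of primes as predicted, all whose terms `x` have all the `x + a^j_i` prime.

The proof combines the lower bound for the number of the prime values of polynomials for almost all constant terms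
(`Pool.Agent.Y843.AQ.sg_low`), made uniform in the individual tuple by shifting the variable, with the theorem of
`Pool.Agent.X26.MC` on common patterns in sets of integers without small prime factors (the starting library).
-/

set_option autoImplicit false

namespace Pool.Agent.Results.MP_68a45e_nt.PatternsAlmostAll

open Filter

/-- For every prime `q` some `n` makes `n` and all the `n + a i` prime to `q`. -/
def Admissible {s : ℕ} (a : Fin s → ℕ) : Prop := ∀ q : ℕ, q.Prime → ∃ n : ℕ, ¬ q ∣ n ∧ ∀ i, ¬ q ∣ n + a i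

/-- The primes `p ∈ (X ^ (1 / 4), X]` for which all the `p + a i` are primes. -/
def Primes {s : ℕ} (a : Fin s → ℕ) (X : ℕ) : Set ℕ :=
  {p | p.Prime ∧ p ≤ X ∧ (X : ℝ) ^ (1 / 4 : ℝ) < p ∧ ∀ i, (p + a i).Prime}

/-- The integer `f · h = f 0 * h 0 + f 1 * h 1 + ...`. -/
def dot {m : ℕ} (f h : Fin m → ℕ) : ℕ := ∑ i, f i * h i

/-- The number of the residues `u` modulo `q` such that `q` divides `w` or some `w + a i` for some `w = u + f · h`,
`f ∈ P`. -/
noncomputable def omega {s : ℕ} (a : Fin s → ℕ) {m : ℕ} (h : Fin m → ℕ) (P : Finset (Fin m → ℕ)) (q : ℕ) : ℕ :=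
  {u : ℕ | 1 ≤ u ∧ u ≤ q ∧ ∃ f ∈ P, q ∣ u + dot f h ∨ ∃ i, q ∣ u + dot f h + a i}.ncard

/-- `X` times the product of the `1 - w q / q` over the primes `q ≤ X`. -/
noncomputable def expected (w : ℕ → ℕ) (X : ℕ) : ℝ :=
  X * ∏ q ∈ (Finset.Icc 1 X).filter Nat.Prime, (1 - (w q : ℝ) / q)

/-- The number of the residues `u` modulo `q` such that `q` divides `u` or some `u + a i`. -/
noncomputable def nu {s : ℕ} (a : Fin s → ℕ) (q : ℕ) : ℕ := {u : ℕ | 1 ≤ u ∧ u ≤ q ∧ (q ∣ u ∨ ∃ i, q ∣ u + a i)}.ncard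

/-- The number of the `n ∈ S` such that all the `n + f · h`, `f ∈ P`, are in `S`. -/
noncomputable def count (S : Set ℕ) {m : ℕ} (h : Fin m → ℕ) (P : Finset (Fin m → ℕ)) : ℕ :=
  {n : ℕ | n ∈ S ∧ ∀ f ∈ P, n + dot f h ∈ S}.ncard

/-- For all `P ⊆ {0, ..., k - 1} ^ m` with `0 ∈ P`: the integers `f · h`, `f ∈ P`, are different, and for all `j`
the conditions modulo the primes are solvable and the set `S j` contains at least `c` times the expected number of
the patterns `n + f · h`, `f ∈ P`. -/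
def Common {s M m : ℕ} (a : Fin M → Fin s → ℕ) (c : ℝ) (k X : ℕ) (S : Fin M → Set ℕ) (h : Fin m → ℕ) : Prop :=
  ∀ P : Finset (Fin m → ℕ), (∀ f ∈ P, ∀ i, f i < k) → (fun _ => 0) ∈ P →
    Set.InjOn (fun f => dot f h) (P : Set (Fin m → ℕ)) ∧
      ∀ j, (∀ q : ℕ, q.Prime → omega (a j) h P q < q) ∧
        c * expected (omega (a j) h P) X ≤ (count (S j) h P : ℝ)

/-- the polynomials -/
noncomputable def F {s : ℕ} (a : Fin s → ℕ) : Fin (s + 1) → Polynomial ℤ :=
  Fin.cons Polynomial.X (fun i => Pool.Agent.W182.PW.lin 1 (a i : ℤ))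

/-- the relation -/
def R {s : ℕ} (a : Fin s → ℕ) (q n : ℕ) : Prop := q ∣ n ∨ ∃ i, q ∣ n + a i

theorem F_zero {s : ℕ} (a : Fin s → ℕ) : F a 0 = Polynomial.X := rfl

theorem F_succ {s : ℕ} (a : Fin s → ℕ) (i : Fin s) : F a i.succ = Pool.Agent.W182.PW.lin 1 (a i : ℤ) := rfl

theorem F_succ_eval {s : ℕ} (a : Fin s → ℕ) (i : Fin s) (n : ℕ) :
    (F a i.succ).eval (n : ℤ) = ((n + a i : ℕ) : ℤ) := by
  rw [F_succ, Pool.Agent.W182.PW.lin_eval]
  push_cast
  ring

theorem hR {s : ℕ} (a : Fin s → ℕ) : ∀ q n : ℕ, 1 ≤ n → (R a q n ↔ ∃ i, (q : ℤ) ∣ (F a i).eval (n : ℤ)) := by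
  intro q n _
  unfold R
  constructor
  · rintro (h | ⟨i, h⟩)
    · exact ⟨0, by rw [F_zero, Polynomial.eval_X]; exact Int.natCast_dvd_natCast.2 h⟩
    · exact ⟨i.succ, by rw [F_succ_eval]; exact Int.natCast_dvd_natCast.2 h⟩
  · rintro ⟨i, hi⟩
    revert hi
    refine Fin.cases ?_ (fun j => ?_) i
    · intro hi
      rw [F_zero, Polynomial.eval_X] at hi
      exact Or.inl (Int.natCast_dvd_natCast.1 hi)
    · intro hi
      rw [F_succ_eval] at hi
      exact Or.inr ⟨j, Int.natCast_dvd_natCast.1 hi⟩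

theorem deg {s : ℕ} (a : Fin s → ℕ) : (∏ i, F a i).natDegree ≤ s + 1 := by
  refine (Polynomial.natDegree_prod_le _ _).trans ?_
  refine (Finset.sum_le_sum (g := fun _ => 1) fun i _ => ?_).trans (by simp)
  refine Fin.cases ?_ (fun j => ?_) i
  · rw [F_zero]
    exact Polynomial.natDegree_X_le
  · rw [F_succ]
    unfold Pool.Agent.W182.PW.lin
    exact Polynomial.natDegree_linear_le

theorem nf {s : ℕ} (a : Fin s → ℕ) (ha : Admissible a) : Pool.Agent.X26.GP.NF (∏ i, F a i) := by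
  intro q hq
  obtain ⟨n, hn0, hn⟩ := ha q hq
  refine ⟨n, fun h => ?_⟩
  rw [Polynomial.eval_prod, (Nat.prime_iff_prime_int.1 hq).dvd_finsetProd_iff] at h
  obtain ⟨i, -, hi⟩ := h
  revert hi
  refine Fin.cases ?_ (fun j => ?_) i
  · intro hi
    rw [F_zero, Polynomial.eval_X] at hi
    exact hn0 (Int.natCast_dvd_natCast.1 hi)
  · intro hi
    rw [F_succ_eval] at hi
    exact hn j (Int.natCast_dvd_natCast.1 hi)

theorem expected_eq {s : ℕ} (a : Fin s → ℕ) (X : ℕ) :
    expected (nu a) X = X * Pool.Agent.X69.Ric.prR (Pool.Agent.Helper269.nuR (R a)) X := rfl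

/-- **Common patterns for almost all tuples.** -/
theorem result (s : ℕ) : ∃ δ₀ : ℝ, 0 < δ₀ ∧ ∀ (M m k : ℕ) (δ : ℝ), 0 < δ → ∃ c : ℝ, 0 < c ∧ ∃ B : ℕ,
    ∀ C U : ℕ, 1 ≤ C → ∃ X₀ : ℕ, ∀ X : ℕ, X₀ ≤ X →
      ∃ Ex : Finset (Fin s → ℕ), (Ex.card : ℝ) ≤ (X : ℝ) ^ s / Real.log X ^ U ∧
        (∀ a : Fin s → ℕ, Admissible a → (∀ i, a i ≤ C * X) → a ∉ Ex →
          δ₀ * expected (nu a) X ≤ ((Primes a X).ncard : ℝ)) ∧
        ∀ a : Fin M → Fin s → ℕ, (∀ j, Admissible (a j) ∧ (∀ i, a j i ≤ C * X) ∧ a j ∉ Ex) →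
          ∀ S : Fin M → Set ℕ, (∀ j, S j ⊆ Primes (a j) X) →
            (∀ j, δ * ((Primes (a j) X).ncard : ℝ) ≤ ((S j).ncard : ℝ)) →
            ∀ D : ℕ, Real.log X ^ B ≤ D → D ≤ X →
              c * (D : ℝ) ^ m ≤ ({h : Fin m → ℕ | (∀ i, 1 ≤ h i ∧ h i ≤ D) ∧ Common a c k X S h}.ncard : ℝ) := by
  obtain ⟨δ₀, hδ₀, h0⟩ := Pool.Agent.Helper269.lin_all (s := s) (fun _ => 1) (fun _ => Or.inl rfl)
  refine ⟨δ₀, hδ₀, fun M m k δ hδ => ?_⟩
  obtain ⟨c, hc, B, X₁, h⟩ := Pool.Agent.Helper269.uni_common (g := s + 1) M m k (s + 1) (1 / 4) (δ * δ₀)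
    (by norm_num) (by norm_num) (by positivity)
  refine ⟨c, hc, B, fun C U hC => ?_⟩
  obtain ⟨N0, h1⟩ := h0 C U hC
  refine ⟨max N0 X₁, fun X hX => ?_⟩
  obtain ⟨E, hE, h2⟩ := h1 X ((le_max_left _ _).trans hX)
  have hRL : ∀ (a : Fin s → ℕ), Pool.Agent.Helper269.RL (fun _ : Fin s => (1 : ℤ)) a = R a := by
    intro a
    funext q n
    unfold Pool.Agent.Helper269.RL R
    rw [eq_iff_iff]
    apply or_congr Iff.rfl
    apply exists_congr
    intro i
    have e : (1 : ℤ) * (n : ℤ) + (a i : ℤ) = ((n + a i : ℕ) : ℤ) := by push_cast; ring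
    rw [e]
    exact Int.natCast_dvd_natCast
  have hlow : ∀ a : Fin s → ℕ, Admissible a → (∀ i, a i ≤ C * X) → a ∉ E →
      δ₀ * expected (nu a) X ≤ ((Primes a X).ncard : ℝ) := by
    intro a hadm ha1 ha2
    have h3 := h2 a ha1 ha2 (fun n hn1 hn2 i => by
      show 1 ≤ (1 : ℤ) * (n : ℤ) + (a i : ℤ)
      omega) (fun q hq => by
      obtain ⟨n, hn0, hn⟩ := hadm q hq
      refine ⟨n, ?_⟩
      rw [hRL]
      rintro (h4 | ⟨i, h4⟩)
      · exact hn0 h4
      · exact hn i h4)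
    rw [hRL, ← expected_eq] at h3
    refine h3.trans (Nat.cast_le.2 ?_)
    apply Set.ncard_le_ncard _ ((Set.finite_Iic X).subset fun n hn => hn.2.1)
    rintro n ⟨h4, h5, h6, h7⟩
    refine ⟨h4, h5, h6, fun i => ?_⟩
    have h8 := (h7 i).1
    have e : (1 : ℤ) * (n : ℤ) + (a i : ℤ) = ((n + a i : ℕ) : ℤ) := by push_cast; ring
    rwa [e, Int.toNat_natCast] at h8
  refine ⟨E, hE, hlow, fun a ha S hS hSc D hBD hDX => ?_⟩
  have h3 := h X D ((le_max_right _ _).trans hX) hBD hDX (fun j => F (a j)) (fun j => R (a j))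
    (fun j => deg (a j)) (fun j => nf (a j) (ha j).1) (fun j => hR (a j)) (fun _ => 0) S (fun j n hn => by
      obtain ⟨h4, h5, -⟩ := hS j hn
      exact ⟨h4.pos, by omega⟩) (fun j n hn q hq hd => by
      obtain ⟨h4, h5, h6, h7⟩ := hS j hn
      rcases hd with hd | ⟨i, hd⟩
      · rw [(Nat.prime_dvd_prime_iff_eq hq h4).1 hd]
        exact h6
      · rw [(Nat.prime_dvd_prime_iff_eq hq (h7 i)).1 hd]
        refine lt_of_lt_of_le h6 ?_
        exact_mod_cast Nat.le_add_right n (a j i)) (fun j => by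
      rw [← expected_eq]
      obtain ⟨h4, h5, h6⟩ := ha j
      calc δ * δ₀ * expected (nu (a j)) X = δ * (δ₀ * expected (nu (a j)) X) := by ring
        _ ≤ δ * ((Primes (a j) X).ncard : ℝ) := mul_le_mul_of_nonneg_left (hlow _ h4 h5 h6) hδ.le
        _ ≤ _ := hSc j)
  exact h3

end Pool.Agent.Results.MP_68a45e_nt.PatternsAlmostAll
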