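import Pool.Agent.Helper269.Uni

/-!
# Common patterns in dense sets of the `a` with `a ^ 2 + 1` prime, in several residue classes of arbitrary moduli

Let `u ≥ 1`, `v ≥ 0` and let `u` and `v ^ 2 + 1` be coprime. Write `E(u, v, X) = X ∏ (1 - ν(q) / q)` (product over the
primes `q ≤ X`), where `ν(q)` is the number of the residues `t` modulo `q` with `q ∣ (u t + v) ^ 2 + 1`; this has the
order of magnitude predicted by Hardy and Littlewood for the number of the `t ≤ X` with `(u t + v) ^ 2 + 1` prime, if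
`X` is large in terms of `u` and `v`.
(1) Consider `M` arbitrary classes `v_j` modulo `u_j`, the moduli being of arbitrary size, and let `S_j` be an
arbitrary set of numbers `t` in an arbitrary interval of length `X`, for which `a ^ 2 + 1`, `a = u_j t + v_j`, has no
prime factor up to `X ^ κ` (for example a set of `t > X ^ κ` with `a ^ 2 + 1` prime). If `S_j` has at least
`δ E(u_j, v_j, X)` elements, for all `j`, then the `S_j` have common difference vectors: for a positive proportion of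
the vectors `h ∈ {1, ..., D} ^ m` the set `S_j` contains for every `P ⊆ {0, ..., k - 1} ^ m` with `0 ∈ P` the number of
patterns `t + f · h`, `f ∈ P`, which is predicted for the `j`-th class, for all `j` at once; here `D` is arbitrary with
`(log X) ^ B ≤ D ≤ X`, and all constants are independent of the `u_j` and `v_j`. For `m = 1`: for a positive
proportion of the integers `d ≤ D` there are such progressions of `k` numbers `a` in the `j`-th class with the
difference `u_j d`, for all `j`.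
(2) The `t` in `(A, A + X]` for which `(u t + v) ^ 2 + 1` has at most `ρ` prime factors, all of them larger than
`X ^ (1 / ρ)`, are such a set, if `u (A + X) + v ≤ X ^ s`, so that (1) is unconditional for their dense subsets, in
short intervals, and uniformly in the modulus.

The proof specialises the theorems of `Pool.Agent.X26` of the starting library.
-/

set_option autoImplicit false

namespace Pool.Agent.Results.MP_7169d5_nt.CommonPatterns

open Filter

/-- A residue class `v` modulo `u` which may contain infinitely many `a` with `a ^ 2 + 1` prime. -/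
structure Class where
  /-- the modulus -/
  u : ℕ
  /-- the residue -/
  v : ℕ
  u_pos : 1 ≤ u
  cop : Nat.Coprime u (v ^ 2 + 1)

/-- The value `a ^ 2 + 1` at `a = u t + v`. -/
def value (e : Class) (t : ℕ) : ℕ := (e.u * t + e.v) ^ 2 + 1

/-- All prime factors of the value at `t` are larger than `z`. -/
def Rough (e : Class) (z : ℝ) (t : ℕ) : Prop := ∀ q : ℕ, q.Prime → q ∣ value e t → z < q

/-- The integer `f · h = f 0 * h 0 + f 1 * h 1 + ...`. -/
def dot {m : ℕ} (f h : Fin m → ℕ) : ℕ := ∑ i, f i * h i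

/-- The number of the residues `w` modulo `q` such that `q` divides the value at `w + f · h` for some `f ∈ P`. -/
noncomputable def omega (e : Class) {m : ℕ} (h : Fin m → ℕ) (P : Finset (Fin m → ℕ)) (q : ℕ) : ℕ :=
  {w : ℕ | 1 ≤ w ∧ w ≤ q ∧ ∃ f ∈ P, q ∣ value e (w + dot f h)}.ncard

/-- `X` times the product of the `1 - w q / q` over the primes `q ≤ X`. -/
noncomputable def expected (w : ℕ → ℕ) (X : ℕ) : ℝ :=
  X * ∏ q ∈ (Finset.Icc 1 X).filter Nat.Prime, (1 - (w q : ℝ) / q)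

/-- The number of the residues `w` modulo `q` such that `q` divides the value at `w`. -/
noncomputable def nu (e : Class) (q : ℕ) : ℕ := {w : ℕ | 1 ≤ w ∧ w ≤ q ∧ q ∣ value e w}.ncard

/-- The number of the `t ∈ S` such that all the `t + f · h`, `f ∈ P`, are in `S`. -/
noncomputable def count (S : Set ℕ) {m : ℕ} (h : Fin m → ℕ) (P : Finset (Fin m → ℕ)) : ℕ :=
  {t : ℕ | t ∈ S ∧ ∀ f ∈ P, t + dot f h ∈ S}.ncard

/-- For all `P ⊆ {0, ..., k - 1} ^ m` with `0 ∈ P`: the integers `f · h`, `f ∈ P`, are different, and for all `j`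
the conditions modulo the primes are solvable and the set `S j` contains at least `c` times the expected number of
the patterns `t + f · h`, `f ∈ P`. -/
def Common {M m : ℕ} (e : Fin M → Class) (c : ℝ) (k X : ℕ) (S : Fin M → Set ℕ) (h : Fin m → ℕ) : Prop :=
  ∀ P : Finset (Fin m → ℕ), (∀ f ∈ P, ∀ i, f i < k) → (fun _ => 0) ∈ P →
    Set.InjOn (fun f => dot f h) (P : Set (Fin m → ℕ)) ∧
      ∀ j, (∀ q : ℕ, q.Prime → omega (e j) h P q < q) ∧
        c * expected (omega (e j) h P) X ≤ (count (S j) h P : ℝ)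

/-- The `t` for which the value at `t` has at most `ρ` prime factors, counted with multiplicity, all of them larger
than `X ^ (1 / ρ)`. -/
def Almost (e : Class) (ρ X : ℕ) : Set ℕ :=
  {t | ArithmeticFunction.cardFactors (value e t) ≤ ρ ∧
    ∀ q : ℕ, q.Prime → q ∣ value e t → (X : ℝ) ^ (1 / (ρ : ℝ)) < q}

/-- the polynomial -/
noncomputable def F (e : Class) (_ : Fin 1) : Polynomial ℤ :=
  (Polynomial.C (e.u : ℤ) * Polynomial.X + Polynomial.C (e.v : ℤ)) ^ 2 + 1

/-- the relation -/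
def R (e : Class) (q t : ℕ) : Prop := q ∣ value e t

theorem F_evalZ (e : Class) (i : Fin 1) (x : ℤ) : (F e i).eval x = (e.u * x + e.v) ^ 2 + 1 := by
  unfold F
  simp

theorem F_eval (e : Class) (i : Fin 1) (t : ℕ) : (F e i).eval (t : ℤ) = ((value e t : ℕ) : ℤ) := by
  rw [F_evalZ]
  unfold value
  push_cast
  ring

theorem prod_eq (e : Class) : ∏ i, F e i = F e 0 := by simp

theorem hR (e : Class) : ∀ q n : ℕ, 1 ≤ n → (R e q n ↔ ∃ i, (q : ℤ) ∣ (F e i).eval (n : ℤ)) := by
  intro q n _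
  unfold R
  constructor
  · intro h
    exact ⟨0, by rw [F_eval e 0 n]; exact Int.natCast_dvd_natCast.2 h⟩
  · rintro ⟨i, hi⟩
    rw [F_eval] at hi
    exact Int.natCast_dvd_natCast.1 hi

theorem deg (e : Class) : (∏ i, F e i).natDegree ≤ 2 := by
  rw [prod_eq]
  unfold F
  refine (Polynomial.natDegree_add_le _ _).trans (max_le ?_ (by simp))
  refine (Polynomial.natDegree_pow_le).trans ?_
  have h := Polynomial.natDegree_linear_le (a := (e.u : ℤ)) (b := (e.v : ℤ))
  omega

theorem nf (e : Class) : Pool.Agent.X26.GP.NF (∏ i, F e i) := by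
  intro q hq
  rw [prod_eq]
  by_contra hcon
  push Not at hcon
  have hp := Nat.prime_iff_prime_int.1 hq
  have h0 := hcon 0
  have h1 := hcon 1
  have h2 := hcon 2
  rw [F_evalZ] at h0 h1 h2
  by_cases hu : (q : ℤ) ∣ e.u
  · have h3 : (q : ℤ) ∣ ((e.v ^ 2 + 1 : ℕ) : ℤ) := by
      push_cast
      have h4 : ((e.u : ℤ) * 0 + e.v) ^ 2 + 1 = (e.v : ℤ) ^ 2 + 1 := by ring
      rwa [h4] at h0
    have h4 : q ∣ 1 := by
      rw [← e.cop]
      exact Nat.dvd_gcd (Int.natCast_dvd_natCast.1 hu) (Int.natCast_dvd_natCast.1 h3)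
    exact hq.one_lt.ne' (Nat.dvd_one.1 h4)
  · have h3 : (q : ℤ) ∣ e.u * (e.u + 2 * e.v) := by
      have h4 := dvd_sub h1 h0
      have h5 : (((e.u : ℤ) * 1 + e.v) ^ 2 + 1) - (((e.u : ℤ) * 0 + e.v) ^ 2 + 1) = e.u * (e.u + 2 * e.v) := by
        ring
      rwa [h5] at h4
    have h4 : (q : ℤ) ∣ e.u * (3 * e.u + 2 * e.v) := by
      have h4 := dvd_sub h2 h1
      have h5 : (((e.u : ℤ) * 2 + e.v) ^ 2 + 1) - (((e.u : ℤ) * 1 + e.v) ^ 2 + 1) =
          e.u * (3 * e.u + 2 * e.v) := by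
        ring
      rwa [h5] at h4
    have h5 := (hp.dvd_or_dvd h3).resolve_left hu
    have h6 := (hp.dvd_or_dvd h4).resolve_left hu
    have h7 : (q : ℤ) ∣ 2 * e.u := by
      have h8 := dvd_sub h6 h5
      have h9 : (3 * (e.u : ℤ) + 2 * e.v) - (e.u + 2 * e.v) = 2 * e.u := by ring
      rwa [h9] at h8
    have h8 := (hp.dvd_or_dvd h7).resolve_right hu
    have h9 : q = 2 := (Nat.prime_dvd_prime_iff_eq hq Nat.prime_two).1 (by exact_mod_cast h8)
    apply hu
    rw [h9] at h5 ⊢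
    have h10 : (((2 : ℕ) : ℤ)) ∣ 2 * (e.v : ℤ) := ⟨e.v, by push_cast; ring⟩
    have h11 := dvd_sub h5 h10
    rwa [add_sub_cancel_right] at h11

theorem expected_eq (e : Class) (X : ℕ) :
    expected (nu e) X = X * Pool.Agent.X69.Ric.prR (Pool.Agent.Helper269.nuR (R e)) X := rfl

/-- **Common patterns.** -/
theorem result :
    (∀ (M m k : ℕ) (κ δ : ℝ), 0 < κ → κ ≤ 1 → 0 < δ →
      ∃ c : ℝ, 0 < c ∧ ∃ B X₀ : ℕ, ∀ X D : ℕ, X₀ ≤ X → Real.log X ^ B ≤ D → D ≤ X →
      ∀ (e : Fin M → Class) (A : Fin M → ℕ) (S : Fin M → Set ℕ),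
        (∀ j, S j ⊆ Set.Ioc (A j) (A j + X)) → (∀ j, ∀ t ∈ S j, Rough (e j) ((X : ℝ) ^ κ) t) →
        (∀ j, δ * expected (nu (e j)) X ≤ ((S j).ncard : ℝ)) →
        c * (D : ℝ) ^ m ≤ ({h : Fin m → ℕ | (∀ i, 1 ≤ h i ∧ h i ≤ D) ∧ Common e c k X S h}.ncard : ℝ)) ∧
    ∀ s : ℝ, ∃ ρ : ℕ, 1 ≤ ρ ∧ ∃ X₀ : ℕ, ∀ (X A : ℕ) (e : Class), X₀ ≤ X →
        ((e.u * (A + X) + e.v : ℕ) : ℝ) ≤ (X : ℝ) ^ s →
        1 / 2 * expected (nu e) X ≤ ((Almost e ρ X ∩ Set.Ioc A (A + X)).ncard : ℝ) ∧
        ∀ t ∈ Almost e ρ X ∩ Set.Ioc A (A + X), Rough e ((X : ℝ) ^ (1 / (ρ : ℝ))) t := by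
  refine ⟨fun M m k κ δ hκ hκ1 hδ => ?_, fun a => ?_⟩
  · obtain ⟨c, hc, B, X₀, h⟩ := Pool.Agent.Helper269.uni_common (g := 1) M m k 2 κ δ hκ hκ1 hδ
    refine ⟨c, hc, B, X₀, fun X D hX hBD hDX e A S hS hSR hSc => ?_⟩
    have h1 := h X D hX hBD hDX (fun j => F (e j)) (fun j => R (e j)) (fun j => deg (e j))
      (fun j => nf (e j)) (fun j => hR (e j)) A S hS (fun j n hn q hq hd => hSR j n hn q hq hd)
      (fun j => by
        rw [← expected_eq]
        exact hSc j)
    exact h1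
  · obtain ⟨ρ, hρ, X₀, h⟩ := Pool.Agent.Helper269.uni_low (g := 1) 2 (2 * a + 1)
    refine ⟨ρ, hρ, max X₀ 2, fun X A e hX hb => ⟨?_, fun n hn => hn.1.2⟩⟩
    have hX1 : 2 ≤ X := (le_max_right _ _).trans hX
    have hX0 : (0 : ℝ) < X := by exact_mod_cast (by omega : 0 < X)
    have hX2 : (2 : ℝ) ≤ X := by exact_mod_cast hX1
    have h1 := h X A ((le_max_left _ _).trans hX) (F e) (R e) (deg e) (nf e) (hR e) (fun n hn1 hn2 => by
      rw [prod_eq, F_eval, Int.cast_natCast, abs_of_nonneg (Nat.cast_nonneg _)]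
      have h2 : ((e.u * n + e.v : ℕ) : ℝ) ≤ (X : ℝ) ^ a := by
        refine le_trans ?_ hb
        exact_mod_cast Nat.add_le_add_right (Nat.mul_le_mul_left _ hn2) _
      have h3 : (1 : ℝ) ≤ ((e.u * n + e.v : ℕ) : ℝ) := by
        have : 1 * 1 ≤ e.u * n := Nat.mul_le_mul e.u_pos (by omega)
        exact_mod_cast (by omega : 1 ≤ e.u * n + e.v)
      have h4 : (0 : ℝ) ≤ ((e.u * n + e.v : ℕ) : ℝ) := by linarith
      unfold value
      calc (((e.u * n + e.v) ^ 2 + 1 : ℕ) : ℝ) = ((e.u * n + e.v : ℕ) : ℝ) ^ 2 + 1 := by push_cast; ring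
        _ ≤ ((e.u * n + e.v : ℕ) : ℝ) ^ 2 + ((e.u * n + e.v : ℕ) : ℝ) ^ 2 := by
            have : (1 : ℝ) ≤ ((e.u * n + e.v : ℕ) : ℝ) ^ 2 := one_le_pow₀ h3
            linarith
        _ = ((e.u * n + e.v : ℕ) : ℝ) ^ 2 * 2 := by ring
        _ ≤ ((X : ℝ) ^ a) ^ 2 * X := by
            apply mul_le_mul (pow_le_pow_left₀ h4 h2 2) hX2 (by norm_num) (by positivity)
        _ = (X : ℝ) ^ (2 * a + 1) := by
            rw [Real.rpow_add hX0, Real.rpow_one, mul_comm 2 a, Real.rpow_mul hX0.le]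
            norm_num)
    rw [← expected_eq] at h1
    refine h1.trans (Nat.cast_le.2 ?_)
    apply Set.ncard_le_ncard _ ((Set.finite_Ioc A (A + X)).subset Set.inter_subset_right)
    rintro n ⟨h2, h3, h4, h5⟩
    rw [prod_eq] at h3 h5
    rw [F_eval, Int.natAbs_natCast] at h3
    refine ⟨⟨?_, ?_⟩, h2⟩
    · rw [ArithmeticFunction.cardFactors_apply]
      exact h3
    · intro q hq hd
      apply h5 q hq
      rw [F_eval, Int.natCast_dvd_natCast]
      exact hd

end Pool.Agent.Results.MP_7169d5_nt.CommonPatterns
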