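import Pool.Agent.Helper269.Uni
import Pool.Agent.W182.PW.Lin

/-!
# Common patterns in dense sets of prime k-tuplets, uniformly in the linear forms

For an admissible system of `s` linear forms `a_i x + b_i`, `1 ≤ b_i < a_i`, write `E(X) = X ∏ (1 - ν(q) / q)` (product
over the primes `q ≤ X`), where `ν(q)` is the number of the residues `n` modulo `q` for which `q` divides one of the
`a_i n + b_i`; this has the order of magnitude predicted for the number of the `n ≤ X` with all `a_i n + b_i` prime,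
if `X` is large in terms of the forms.
(1) Consider `M` arbitrary admissible systems of `s` forms, with coefficients of arbitrary size, and let `S_j` be an
arbitrary set of integers `n` in an arbitrary interval of length `X`, for which no value of the `j`-th system has a
prime factor up to `X ^ κ` (for example a set of `n > X ^ κ` at which all the forms are prime). If `S_j` has at least
`δ E_j(X)` elements, for all `j`, then the `S_j` have common difference vectors: for a positive proportion of the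
vectors `h ∈ {1, ..., D} ^ m` the set `S_j` contains for every `P ⊆ {0, ..., k - 1} ^ m` with `0 ∈ P` the number of
patterns `n + f · h`, `f ∈ P`, which is predicted for the `j`-th system, for all `j` at once; here `D` is arbitrary
with `(log X) ^ B ≤ D ≤ X`, and all constants are independent of the forms. For `m = 1`: a positive proportion of the
integers up to `D` are differences of `k`-term arithmetic progressions in all the sets `S_j`.
(2) The `n` in `(A, A + X]` for which the product of the values has at most `ρ` prime factors, all of them larger than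
`X ^ (1 / ρ)`, are such a set, if all `a_i (A + X) + b_i` are at most `X ^ t`, for example for `A = 0` and
`X = ⌈(a_1 ... a_s) ^ ε⌉`, so that (1) is unconditional for their dense subsets, uniformly in the forms.

The proof specialises the theorems of `Pool.Agent.X26` of the starting library.
-/

set_option autoImplicit false

namespace Pool.Agent.Results.MP_746f10_nt.CommonPatterns

open Filter

/-- An admissible system of `s` linear forms `a i * x + b i`. -/
structure Forms (s : ℕ) where
  /-- the leading coefficients -/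
  a : Fin s → ℕ
  /-- the constant terms -/
  b : Fin s → ℕ
  b_pos : ∀ i, 1 ≤ b i
  b_lt : ∀ i, b i < a i
  adm : ∀ p : ℕ, p.Prime → ∃ n : ℤ, ∀ i, ¬ (p : ℤ) ∣ a i * n + b i

/-- `q` divides one of the values of the system at `n`. -/
def Divides {s : ℕ} (e : Forms s) (q n : ℕ) : Prop := ∃ i, q ∣ e.a i * n + e.b i

/-- All prime factors of the values at `n` are larger than `z`. -/
def Rough {s : ℕ} (e : Forms s) (z : ℝ) (n : ℕ) : Prop := ∀ q : ℕ, q.Prime → Divides e q n → z < q

/-- The integer `f · h = f 0 * h 0 + f 1 * h 1 + ...`. -/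
def dot {m : ℕ} (f h : Fin m → ℕ) : ℕ := ∑ i, f i * h i

/-- The number of the residues `u` modulo `q` such that `q` divides a value at `u + f · h` for some `f ∈ P`. -/
noncomputable def omega {s : ℕ} (e : Forms s) {m : ℕ} (h : Fin m → ℕ) (P : Finset (Fin m → ℕ)) (q : ℕ) : ℕ :=
  {u : ℕ | 1 ≤ u ∧ u ≤ q ∧ ∃ f ∈ P, Divides e q (u + dot f h)}.ncard

/-- `X` times the product of the `1 - w q / q` over the primes `q ≤ X`. -/
noncomputable def expected (w : ℕ → ℕ) (X : ℕ) : ℝ :=
  X * ∏ q ∈ (Finset.Icc 1 X).filter Nat.Prime, (1 - (w q : ℝ) / q)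

/-- The number of the residues `u` modulo `q` such that `q` divides a value at `u`. -/
noncomputable def nu {s : ℕ} (e : Forms s) (q : ℕ) : ℕ := {u : ℕ | 1 ≤ u ∧ u ≤ q ∧ Divides e q u}.ncard

/-- The number of the `n ∈ S` such that all the `n + f · h`, `f ∈ P`, are in `S`. -/
noncomputable def count (S : Set ℕ) {m : ℕ} (h : Fin m → ℕ) (P : Finset (Fin m → ℕ)) : ℕ :=
  {n : ℕ | n ∈ S ∧ ∀ f ∈ P, n + dot f h ∈ S}.ncard

/-- For all `P ⊆ {0, ..., k - 1} ^ m` with `0 ∈ P`: the integers `f · h`, `f ∈ P`, are different, and for all `j`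
the conditions modulo the primes are solvable and the set `S j` contains at least `c` times the expected number of
the patterns `n + f · h`, `f ∈ P`. -/
def Common {s M m : ℕ} (e : Fin M → Forms s) (c : ℝ) (k X : ℕ) (S : Fin M → Set ℕ) (h : Fin m → ℕ) : Prop :=
  ∀ P : Finset (Fin m → ℕ), (∀ f ∈ P, ∀ i, f i < k) → (fun _ => 0) ∈ P →
    Set.InjOn (fun f => dot f h) (P : Set (Fin m → ℕ)) ∧
      ∀ j, (∀ q : ℕ, q.Prime → omega (e j) h P q < q) ∧
        c * expected (omega (e j) h P) X ≤ (count (S j) h P : ℝ)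

/-- The `n` for which the product of the values has at most `ρ` prime factors, counted with multiplicity, all of them
larger than `X ^ (1 / ρ)`. -/
def Almost {s : ℕ} (e : Forms s) (ρ X : ℕ) : Set ℕ :=
  {n | ArithmeticFunction.cardFactors (∏ i, (e.a i * n + e.b i)) ≤ ρ ∧
    ∀ q : ℕ, q.Prime → Divides e q n → (X : ℝ) ^ (1 / (ρ : ℝ)) < q}

/-- the polynomials -/
noncomputable def F {s : ℕ} (e : Forms s) (i : Fin s) : Polynomial ℤ :=
  Pool.Agent.W182.PW.lin (e.a i) (e.b i : ℤ)

theorem F_eval {s : ℕ} (e : Forms s) (i : Fin s) (n : ℕ) :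
    (F e i).eval (n : ℤ) = ((e.a i * n + e.b i : ℕ) : ℤ) := by
  unfold F
  rw [Pool.Agent.W182.PW.lin_eval]
  push_cast
  ring

theorem prod_eval {s : ℕ} (e : Forms s) (n : ℕ) :
    (∏ i, F e i).eval (n : ℤ) = ((∏ i, (e.a i * n + e.b i) : ℕ) : ℤ) := by
  rw [Polynomial.eval_prod, Nat.cast_prod]
  exact Finset.prod_congr rfl fun i _ => F_eval e i n

theorem hR {s : ℕ} (e : Forms s) :
    ∀ q n : ℕ, 1 ≤ n → (Divides e q n ↔ ∃ i, (q : ℤ) ∣ (F e i).eval (n : ℤ)) := by
  intro q n _
  unfold Divides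
  apply exists_congr
  intro i
  rw [F_eval, Int.natCast_dvd_natCast]

theorem deg {s : ℕ} (e : Forms s) : (∏ i, F e i).natDegree ≤ s := by
  refine (Polynomial.natDegree_prod_le _ _).trans ?_
  refine (Finset.sum_le_sum (g := fun _ => 1) fun i _ => ?_).trans (by simp)
  unfold F Pool.Agent.W182.PW.lin
  exact Polynomial.natDegree_linear_le

theorem nf {s : ℕ} (e : Forms s) : Pool.Agent.X26.GP.NF (∏ i, F e i) := by
  intro q hq
  obtain ⟨n, hn⟩ := e.adm q hq
  refine ⟨n, fun h => ?_⟩
  rw [Polynomial.eval_prod, Prime.dvd_finsetProd_iff (Nat.prime_iff_prime_int.1 hq)] at h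
  obtain ⟨i, -, hi⟩ := h
  apply hn i
  unfold F at hi
  rwa [Pool.Agent.W182.PW.lin_eval] at hi

theorem expected_eq {s : ℕ} (e : Forms s) (X : ℕ) :
    expected (nu e) X = X * Pool.Agent.X69.Ric.prR (Pool.Agent.Helper269.nuR (Divides e)) X := rfl

/-- **Common patterns.** -/
theorem result (s : ℕ) :
    (∀ (M m k : ℕ) (κ δ : ℝ), 0 < κ → κ ≤ 1 → 0 < δ →
      ∃ c : ℝ, 0 < c ∧ ∃ B X₀ : ℕ, ∀ X D : ℕ, X₀ ≤ X → Real.log X ^ B ≤ D → D ≤ X →
      ∀ (e : Fin M → Forms s) (A : Fin M → ℕ) (S : Fin M → Set ℕ),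
        (∀ j, S j ⊆ Set.Ioc (A j) (A j + X)) → (∀ j, ∀ n ∈ S j, Rough (e j) ((X : ℝ) ^ κ) n) →
        (∀ j, δ * expected (nu (e j)) X ≤ ((S j).ncard : ℝ)) →
        c * (D : ℝ) ^ m ≤ ({h : Fin m → ℕ | (∀ i, 1 ≤ h i ∧ h i ≤ D) ∧ Common e c k X S h}.ncard : ℝ)) ∧
    ∀ t : ℝ, ∃ ρ : ℕ, 1 ≤ ρ ∧ ∃ X₀ : ℕ, ∀ (X A : ℕ) (e : Forms s), X₀ ≤ X →
        (∀ i, ((e.a i * (A + X) + e.b i : ℕ) : ℝ) ≤ (X : ℝ) ^ t) →
        1 / 2 * expected (nu e) X ≤ ((Almost e ρ X ∩ Set.Ioc A (A + X)).ncard : ℝ) ∧
        ∀ n ∈ Almost e ρ X ∩ Set.Ioc A (A + X), Rough e ((X : ℝ) ^ (1 / (ρ : ℝ))) n := by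
  refine ⟨fun M m k κ δ hκ hκ1 hδ => ?_, fun t => ?_⟩
  · obtain ⟨c, hc, B, X₀, h⟩ := Pool.Agent.Helper269.uni_common (g := s) M m k s κ δ hκ hκ1 hδ
    refine ⟨c, hc, B, X₀, fun X D hX hBD hDX e A S hS hSR hSc => ?_⟩
    have h1 := h X D hX hBD hDX (fun j => F (e j)) (fun j => Divides (e j)) (fun j => deg (e j))
      (fun j => nf (e j)) (fun j => hR (e j)) A S hS (fun j n hn q hq hd => hSR j n hn q hq hd)
      (fun j => by
        rw [← expected_eq]
        exact hSc j)
    exact h1
  · obtain ⟨ρ, hρ, X₀, h⟩ := Pool.Agent.Helper269.uni_low (g := s) s (t * s)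
    refine ⟨ρ, hρ, max X₀ 1, fun X A e hX hb => ⟨?_, fun n hn => hn.1.2⟩⟩
    have hX1 : 1 ≤ X := (le_max_right _ _).trans hX
    have hX0 : (0 : ℝ) < X := by exact_mod_cast hX1
    have h1 := h X A ((le_max_left _ _).trans hX) (F e) (Divides e) (deg e) (nf e) (hR e) (fun n hn1 hn2 => by
      rw [prod_eval, Int.cast_natCast, abs_of_nonneg (Nat.cast_nonneg _), Nat.cast_prod, Real.rpow_mul hX0.le,
        Real.rpow_natCast]
      calc ∏ i, ((e.a i * n + e.b i : ℕ) : ℝ) ≤ ∏ _i : Fin s, (X : ℝ) ^ t := by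
            apply Finset.prod_le_prod (fun i _ => Nat.cast_nonneg _)
            intro i _
            refine le_trans ?_ (hb i)
            exact_mod_cast Nat.add_le_add_right (Nat.mul_le_mul_left _ hn2) _
        _ = ((X : ℝ) ^ t) ^ s := by simp)
    rw [← expected_eq] at h1
    refine h1.trans (Nat.cast_le.2 ?_)
    apply Set.ncard_le_ncard _ ((Set.finite_Ioc A (A + X)).subset Set.inter_subset_right)
    rintro n ⟨h2, h3, h4, h5⟩
    rw [prod_eval, Int.natAbs_natCast] at h3
    refine ⟨⟨?_, ?_⟩, h2⟩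
    · rw [ArithmeticFunction.cardFactors_apply]
      exact h3
    · rintro q hq ⟨i, hi⟩
      apply h5 q hq
      rw [prod_eval, Int.natCast_dvd_natCast]
      exact hi.trans (Finset.dvd_prod_of_mem (fun i => e.a i * n + e.b i) (Finset.mem_univ i))

end Pool.Agent.Results.MP_746f10_nt.CommonPatterns
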