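import Pool.Agent.X69.Ric.PatC
import Pool.Agent.Helper724_Q.PS

/-!
# Patterns in the primes `p` with `p ^ 2 + p + 1` prime or almost prime

(1) All but at most `ε X / log ^ 2 X` elements of an arbitrary set `S` of integers `n` in an interval
`(A, A + X]`, for which `n` and `n ^ 2 + n + 1` have no prime factors up to `X ^ κ` (for example the set of all the
primes `p > X ^ κ` of the interval with `p ^ 2 + p + 1` prime), are centres of patterns in `S` of the predicted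
number, with differences up to `D`, for every `D ≥ (log X) ^ B`.
(2) `M` such sets `S_j` in `M` arbitrary intervals of length `X`, with at least `δ X / log ^ 2 X` elements each, have
common difference vectors: for a positive proportion of the vectors `h ∈ {1, ..., D} ^ m` the `j`-th set contains for
every `P ⊆ {0, ..., k - 1} ^ m` with `0 ∈ P` the predicted number of patterns `n + f · h`, `f ∈ P`, for all `j` at
once. For `m = 1`: a positive proportion of the integers up to `D` are differences of `k`-term arithmetic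
progressions in all the sets `S_j`.
(3) The primes `p` in `(X, 2 X]`, for which `p ^ 2 + p + 1` has at most `r` prime factors, all of them larger than
`p ^ (1 / r)`, are such a set, so that (1) and (2) are unconditional for them and for their dense subsets.

The proof specialises the theorems of `Pool.Agent.X69.Ric` of the starting library.
-/

set_option autoImplicit false

namespace Pool.Agent.Results.MP_82233c_nt.DenseSetPatterns

open Filter

/-- All prime factors of `n` and of `n ^ 2 + n + 1` are larger than `y`. -/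
def Rough (y : ℝ) (n : ℕ) : Prop := ∀ q : ℕ, q.Prime → (q ∣ n ∨ q ∣ n ^ 2 + n + 1) → y < q

/-- The integer `f · h = f 0 * h 0 + f 1 * h 1 + ...`. -/
def dot {m : ℕ} (f h : Fin m → ℕ) : ℕ := ∑ i, f i * h i

/-- `n` is a centre in `S` for `h`: all the integers `n + f · h` with `|f i| ≤ K` for all `i` are in `S`. -/
def Centre (K : ℕ) (S : Set ℕ) {m : ℕ} (n : ℕ) (h : Fin m → ℕ) : Prop :=
  ∀ f : Fin m → ℤ, (∀ i, |f i| ≤ K) → ∃ s ∈ S, (s : ℤ) = n + ∑ i, f i * (h i : ℤ)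

/-- The number of the vectors `h ∈ {1, ..., D} ^ m` for which `n` is a centre in `S`. -/
noncomputable def patterns (K m D : ℕ) (S : Set ℕ) (n : ℕ) : ℕ :=
  {h : Fin m → ℕ | (∀ i, 1 ≤ h i ∧ h i ≤ D) ∧ Centre K S n h}.ncard

/-- The number of the residues `u` modulo `q` such that `q` divides `w` or `w ^ 2 + w + 1` for some `w = u + f · h`, `f ∈ P`. -/
noncomputable def omega {m : ℕ} (h : Fin m → ℕ) (P : Finset (Fin m → ℕ)) (q : ℕ) : ℕ :=
  {u : ℕ | 1 ≤ u ∧ u ≤ q ∧ ∃ f ∈ P, q ∣ (u + dot f h) ∨ q ∣ (u + dot f h) ^ 2 + (u + dot f h) + 1}.ncard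

/-- The product of the `1 - w q / q` over the primes `q ≤ X`. -/
noncomputable def product (w : ℕ → ℕ) (X : ℕ) : ℝ :=
  ∏ q ∈ (Finset.Icc 1 X).filter Nat.Prime, (1 - (w q : ℝ) / q)

/-- The number of the `n ∈ S` such that all the `n + f · h`, `f ∈ P`, are in `S`. -/
noncomputable def count (S : Set ℕ) {m : ℕ} (h : Fin m → ℕ) (P : Finset (Fin m → ℕ)) : ℕ :=
  {n : ℕ | n ∈ S ∧ ∀ f ∈ P, n + dot f h ∈ S}.ncard

/-- For all `P ⊆ {0, ..., k - 1} ^ m` with `0 ∈ P`: the integers `f · h`, `f ∈ P`, are different, and for all `j`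
the conditions modulo the primes are solvable and the set `S j` contains at least
`c X ∏ (1 - omega h P q / q)` of the patterns `n + f · h`, `f ∈ P`. -/
def Common {M m : ℕ} (c : ℝ) (k X : ℕ) (S : Fin M → Set ℕ) (h : Fin m → ℕ) : Prop :=
  ∀ P : Finset (Fin m → ℕ), (∀ f ∈ P, ∀ i, f i < k) → (fun _ => 0) ∈ P →
    Set.InjOn (fun f => dot f h) (P : Set (Fin m → ℕ)) ∧
      ∀ j, (∀ q : ℕ, q.Prime → omega h P q < q) ∧
        c * (X * product (omega h P) X) ≤ (count (S j) h P : ℝ)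

/-- The primes `p` for which `p ^ 2 + p + 1` has at most `r` prime factors, counted with multiplicity, all of them
larger than `p ^ (1 / r)`. -/
def Almost (r : ℕ) : Set ℕ := 
  {p | p.Prime ∧ ArithmeticFunction.cardFactors (p ^ 2 + p + 1) ≤ r ∧
    ∀ q : ℕ, q.Prime → q ∣ p ^ 2 + p + 1 → (p : ℝ) ^ (1 / (r : ℝ)) < q}

/-- the values -/
def V (n : ℕ) (_ : Fin 1) : ℕ := n ^ 2 + n + 1

theorem hR (q n : ℕ) : (q ∣ n ∨ q ∣ n ^ 2 + n + 1) ↔ (q ∣ n ∨ ∃ i, q ∣ V n i) := by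
  simp [V]

theorem almost_eq (r : ℕ) : Almost r = Pool.Agent.X69.Ric.AVp V r := by
  ext n
  unfold Almost Pool.Agent.X69.Ric.AVp Pool.Agent.X69.Ric.AV
  simp [V]

theorem psys : Pool.Agent.X69.Ric.PSys (fun _ : Fin 1 => Pool.Agent.TH464.PW.quad 1 1 1) V := by
  apply Pool.Agent.Helper724_Q.psys_one 1 1 1 (fun n => n ^ 2 + n + 1) (by norm_num)
  · rintro p hp ⟨h, -, -⟩
    exact hp.one_lt.ne' (Nat.dvd_one.1 (by exact_mod_cast h))
  · rintro ⟨r, hr⟩
    nlinarith [mul_self_nonneg r]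
  · intro p hp
    rcases eq_or_ne p 3 with rfl | h3
    · refine ⟨2, by norm_num, by norm_num⟩
    · refine ⟨1, ?_, ?_⟩
      · intro h
        exact hp.one_lt.ne' (Nat.dvd_one.1 h)
      · intro h
        have h1 : (p : ℤ) ∣ 3 := by simpa using h
        have h2 : p ∣ 3 := by exact_mod_cast h1
        exact h3 ((Nat.prime_dvd_prime_iff_eq hp (by norm_num)).1 h2)
  · intro n hn
    push_cast
    ring

/-- **Patterns.** -/
theorem result :
    (∀ (m K : ℕ) (κ ε : ℝ), 1 ≤ K → 0 < κ → κ ≤ 1 → 0 < ε →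
      ∃ c : ℝ, 0 < c ∧ ∃ B : ℕ, ∀ᶠ X : ℕ in atTop,
      ∀ A D : ℕ, Real.log X ^ B ≤ D → D ≤ X → ∀ S : Set ℕ, S ⊆ Set.Ioc A (A + X) →
        (∀ n ∈ S, Rough ((X : ℝ) ^ κ) n) →
        ({n : ℕ | n ∈ S ∧ (patterns K m D S n : ℝ) <
          c * ((D : ℝ) ^ m / Real.log X ^ (2 * ((2 * K + 1) ^ m - 1)))}.ncard : ℝ) ≤
            ε * X / Real.log X ^ 2) ∧
    (∀ (M m k : ℕ) (κ δ : ℝ), 0 < κ → κ ≤ 1 → 0 < δ →
      ∃ c : ℝ, 0 < c ∧ ∃ B : ℕ, ∀ᶠ X : ℕ in atTop,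
      ∀ D : ℕ, Real.log X ^ B ≤ D → D ≤ X → ∀ (A : Fin M → ℕ) (S : Fin M → Set ℕ),
        (∀ j, S j ⊆ Set.Ioc (A j) (A j + X)) → (∀ j, ∀ n ∈ S j, Rough ((X : ℝ) ^ κ) n) →
        (∀ j, δ * X / Real.log X ^ 2 ≤ ((S j).ncard : ℝ)) →
        c * (D : ℝ) ^ m ≤ ({h : Fin m → ℕ | (∀ i, 1 ≤ h i ∧ h i ≤ D) ∧ Common c k X S h}.ncard : ℝ)) ∧
    ∃ r₀ : ℕ, 2 ≤ r₀ ∧ ∀ r : ℕ, r₀ ≤ r → ∃ δ : ℝ, 0 < δ ∧ ∀ᶠ X : ℕ in atTop,
        δ * X / Real.log X ^ 2 ≤ ((Almost r ∩ Set.Ioc X (X + X)).ncard : ℝ) ∧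
        ∀ p ∈ Almost r ∩ Set.Ioc X (X + X), Rough ((X : ℝ) ^ (1 / (r : ℝ))) p := by
  have H := psys 
  refine ⟨fun m K κ ε hK hκ hκ1 hε => ?_, fun M m k κ δ hκ hκ1 hδ => ?_, ?_⟩
  · obtain ⟨c, hc, B, h⟩ := H.typ (fun q n => q ∣ n ∨ q ∣ n ^ 2 + n + 1) (fun q n _ => hR q n)
      m K hK κ ε hκ hκ1 hε
    exact ⟨c, hc, B, h⟩
  · obtain ⟨c, hc, B, h⟩ := Pool.Agent.X69.Ric.PSys.common (M := M) (fun _ => H)
      (fun _ q n => q ∣ n ∨ q ∣ n ^ 2 + n + 1) (fun _ q n _ => hR q n) m k κ δ hκ hκ1 hδ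
    exact ⟨c, hc, B, h⟩
  · obtain ⟨r₀, hr₀, h⟩ := H.dyadic
    refine ⟨r₀, hr₀, fun r hr => ?_⟩
    obtain ⟨c, hc, h1⟩ := h r hr
    refine ⟨c, hc, ?_⟩
    filter_upwards [h1] with X hX
    rw [almost_eq]
    refine ⟨hX, fun p hp q hq hd => ?_⟩
    exact Pool.Agent.X69.Ric.AVp_gt r (hr₀.trans hr) hp.1 hp.2.1 q hq ((hR q p).1 hd)

end Pool.Agent.Results.MP_82233c_nt.DenseSetPatterns
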