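import Pool.Agent.Helper269.Uni
import Pool.Agent.Helper269.Root
import Pool.Agent.W182.PW.Lin

/-!
# Common patterns in dense sets of prime pairs in residue classes, uniformly in the moduli and in the differences

Let `d ≥ 2` be even and let `u ≥ 1` and `v ≥ 0` be such that `v` and `v + d` are coprime to `u`. Write
`E(X) = X ∏ (1 - ν(r) / r)` (product over the primes `r ≤ X`), where `ν(r) = 0` if `r ∣ u`, otherwise `ν(r) = 1` if
`r ∣ d`, otherwise `ν(r) = 2`; this has the order of magnitude predicted for the number of the prime pairs `p, p + d`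
with `p ≡ v` modulo `u` and `p ≤ u X + v`, if `X` is large in terms of `u` and `d`.
(1) Consider `M` arbitrary classes `v_j` modulo `u_j` and differences `d_j`, of arbitrary size, and let `S_j` be an
arbitrary set of numbers `t` in an arbitrary interval of length `X`, for which `p = u_j t + v_j` and `p + d_j` have no
prime factors up to `X ^ κ` (for example a set of `t > X ^ κ` for which `p` and `p + d_j` are prime). If `S_j` has at
least `δ E_j(X)` elements, for all `j`, then the `S_j` have common difference vectors: for a positive proportion of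
the vectors `h ∈ {1, ..., D} ^ m` the set `S_j` contains for every `P ⊆ {0, ..., k - 1} ^ m` with `0 ∈ P` the number of
patterns `t + f · h`, `f ∈ P`, which is predicted for the `j`-th class, for all `j` at once; here `D` is arbitrary
with `(log X) ^ B ≤ D ≤ X`, and all constants are independent of the `u_j`, `v_j` and `d_j`. For `m = 1`: for a
positive proportion of the integers `D' ≤ D` there are progressions of `k` numbers `p` in the `j`-th class with the
difference `u_j D'` and with this property, for all `j`.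
(2) The `t` in `(A, A + X]` for which `p (p + d)`, `p = u t + v`, has at most `ρ` prime factors, all of them larger
than `X ^ (1 / ρ)`, are such a set, if `u (A + X) + v + d ≤ X ^ s`, so that (1) is unconditional for their dense
subsets, in short intervals, and uniformly in the modulus and in the difference.

The proof specialises the theorems of `Pool.Agent.X26` of the starting library.
-/

set_option autoImplicit false

namespace Pool.Agent.Results.MP_92ef0c_nt.CommonPatterns

open Filter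

/-- An even difference `d`, and a residue class `v` modulo `u` which may contain infinitely many primes `p` with
`p + d` prime. -/
structure Class where
  /-- the difference -/
  d : ℕ
  /-- the modulus -/
  u : ℕ
  /-- the residue -/
  v : ℕ
  d_pos : 0 < d
  d_even : Even d
  u_pos : 1 ≤ u
  cop : Nat.Coprime v u
  cop' : Nat.Coprime (v + d) u

/-- `r` divides one of the numbers `p = u t + v` and `p + d`. -/
def Divides (e : Class) (r t : ℕ) : Prop := r ∣ e.u * t + e.v ∨ r ∣ e.u * t + e.v + e.d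

/-- All prime factors of the numbers `p = u t + v` and `p + d` are larger than `z`. -/
def Rough (e : Class) (z : ℝ) (t : ℕ) : Prop := ∀ r : ℕ, r.Prime → Divides e r t → z < r

/-- The integer `f · h = f 0 * h 0 + f 1 * h 1 + ...`. -/
def dot {m : ℕ} (f h : Fin m → ℕ) : ℕ := ∑ i, f i * h i

/-- The number of the residues `w` modulo `r` such that `r` divides `p` or `p + d`, where `p` belongs to
`t = w + f · h`, for some `f ∈ P`. -/
noncomputable def omega (e : Class) {m : ℕ} (h : Fin m → ℕ) (P : Finset (Fin m → ℕ)) (r : ℕ) : ℕ :=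
  {w : ℕ | 1 ≤ w ∧ w ≤ r ∧ ∃ f ∈ P, Divides e r (w + dot f h)}.ncard

/-- `X` times the product of the `1 - w r / r` over the primes `r ≤ X`. -/
noncomputable def expected (w : ℕ → ℕ) (X : ℕ) : ℝ :=
  X * ∏ r ∈ (Finset.Icc 1 X).filter Nat.Prime, (1 - (w r : ℝ) / r)

/-- `0` if `r` divides the modulus, otherwise `1` if `r` divides the difference, otherwise `2`. -/
def nu (e : Class) (r : ℕ) : ℕ := if r ∣ e.u then 0 else if r ∣ e.d then 1 else 2

/-- The number of the `t ∈ S` such that all the `t + f · h`, `f ∈ P`, are in `S`. -/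
noncomputable def count (S : Set ℕ) {m : ℕ} (h : Fin m → ℕ) (P : Finset (Fin m → ℕ)) : ℕ :=
  {t : ℕ | t ∈ S ∧ ∀ f ∈ P, t + dot f h ∈ S}.ncard

/-- For all `P ⊆ {0, ..., k - 1} ^ m` with `0 ∈ P`: the integers `f · h`, `f ∈ P`, are different, and for all `j`
the conditions modulo the primes are solvable and the set `S j` contains at least `c` times the expected number of
the patterns `t + f · h`, `f ∈ P`. -/
def Common {M m : ℕ} (e : Fin M → Class) (c : ℝ) (k X : ℕ) (S : Fin M → Set ℕ) (h : Fin m → ℕ) : Prop :=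
  ∀ P : Finset (Fin m → ℕ), (∀ f ∈ P, ∀ i, f i < k) → (fun _ => 0) ∈ P →
    Set.InjOn (fun f => dot f h) (P : Set (Fin m → ℕ)) ∧
      ∀ j, (∀ r : ℕ, r.Prime → omega (e j) h P r < r) ∧
        c * expected (omega (e j) h P) X ≤ (count (S j) h P : ℝ)

/-- The `t` for which `p (p + d)`, `p = u t + v`, has at most `ρ` prime factors, counted with multiplicity, all of
them larger than `X ^ (1 / ρ)`. -/
def Almost (e : Class) (ρ X : ℕ) : Set ℕ :=
  {t | ArithmeticFunction.cardFactors ((e.u * t + e.v) * (e.u * t + e.v + e.d)) ≤ ρ ∧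
    ∀ r : ℕ, r.Prime → Divides e r t → (X : ℝ) ^ (1 / (ρ : ℝ)) < r}

/-- the polynomials -/
noncomputable def F (e : Class) (i : Fin 2) : Polynomial ℤ :=
  if i = 0 then Pool.Agent.W182.PW.lin e.u e.v else Pool.Agent.W182.PW.lin e.u (e.v + e.d)

theorem F_eval (e : Class) (t : ℕ) : (F e 0).eval (t : ℤ) = ((e.u * t + e.v : ℕ) : ℤ) ∧
    (F e 1).eval (t : ℤ) = ((e.u * t + e.v + e.d : ℕ) : ℤ) := by
  constructor
  · unfold F
    rw [if_pos rfl, Pool.Agent.W182.PW.lin_eval]
    push_cast
    ring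
  · unfold F
    rw [if_neg (by decide), Pool.Agent.W182.PW.lin_eval]
    push_cast
    ring

theorem prod_eval (e : Class) (t : ℕ) :
    (∏ i, F e i).eval (t : ℤ) = (((e.u * t + e.v) * (e.u * t + e.v + e.d) : ℕ) : ℤ) := by
  rw [Polynomial.eval_prod, Fin.prod_univ_two, (F_eval e t).1, (F_eval e t).2, Nat.cast_mul]

theorem hR (e : Class) : ∀ q n : ℕ, 1 ≤ n → (Divides e q n ↔ ∃ i, (q : ℤ) ∣ (F e i).eval (n : ℤ)) := by
  intro q n _
  unfold Divides
  constructor
  · rintro (h | h)
    · exact ⟨0, by rw [(F_eval e n).1]; exact Int.natCast_dvd_natCast.2 h⟩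
    · exact ⟨1, by rw [(F_eval e n).2]; exact Int.natCast_dvd_natCast.2 h⟩
  · rintro ⟨i, hi⟩
    fin_cases i
    · have h2 : (q : ℤ) ∣ (F e 0).eval (n : ℤ) := hi
      rw [(F_eval e n).1] at h2
      exact Or.inl (Int.natCast_dvd_natCast.1 h2)
    · have h2 : (q : ℤ) ∣ (F e 1).eval (n : ℤ) := hi
      rw [(F_eval e n).2] at h2
      exact Or.inr (Int.natCast_dvd_natCast.1 h2)

theorem deg (e : Class) : (∏ i, F e i).natDegree ≤ 2 := by
  refine (Polynomial.natDegree_prod_le _ _).trans ?_
  rw [Fin.sum_univ_two]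
  have h0 : (F e 0).natDegree ≤ 1 := by
    unfold F Pool.Agent.W182.PW.lin
    rw [if_pos rfl]
    exact Polynomial.natDegree_linear_le
  have h1 : (F e 1).natDegree ≤ 1 := by
    unfold F Pool.Agent.W182.PW.lin
    rw [if_neg (by decide)]
    exact Polynomial.natDegree_linear_le
  omega

theorem nu_eq (e : Class) (q : ℕ) (hq : q.Prime) : Pool.Agent.Helper269.nuR (Divides e) q = nu e q := by
  unfold Pool.Agent.Helper269.nuR nu Divides
  by_cases hu : q ∣ e.u
  · rw [if_pos hu]
    have e1 : {w : ℕ | 1 ≤ w ∧ w ≤ q ∧ (q ∣ e.u * w + e.v ∨ q ∣ e.u * w + e.v + e.d)} = ∅ := by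
      ext w
      simp only [Set.mem_ofPred_eq, Set.mem_empty_iff_false, iff_false, not_and]
      rintro - - (h | h)
      · have h1 : q ∣ e.v := (Nat.dvd_add_right (hu.mul_right w)).1 h
        exact hq.one_lt.ne' (Nat.dvd_one.1 (e.cop ▸ Nat.dvd_gcd h1 hu))
      · rw [add_assoc] at h
        have h1 : q ∣ e.v + e.d := (Nat.dvd_add_right (hu.mul_right w)).1 h
        exact hq.one_lt.ne' (Nat.dvd_one.1 (e.cop' ▸ Nat.dvd_gcd h1 hu))
    rw [e1, Set.ncard_empty]
  · rw [if_neg hu]
    obtain ⟨u, ⟨h1, h2, h3⟩, h4⟩ := Pool.Agent.Helper269.root q e.v e.u hq hu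
    obtain ⟨v, ⟨k1, k2, k3⟩, k4⟩ := Pool.Agent.Helper269.root q (e.v + e.d) e.u hq hu
    have e1 : {w : ℕ | 1 ≤ w ∧ w ≤ q ∧ (q ∣ e.u * w + e.v ∨ q ∣ e.u * w + e.v + e.d)} = {u, v} := by
      ext w
      simp only [Set.mem_ofPred_eq, Set.mem_insert_iff, Set.mem_singleton_iff]
      constructor
      · rintro ⟨h5, h6, h7 | h7⟩
        · exact Or.inl (h4 w h5 h6 (by rwa [add_comm]))
        · refine Or.inr (k4 w h5 h6 ?_)
          have h8 : e.v + e.d + e.u * w = e.u * w + e.v + e.d := by ring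
          rwa [h8]
      · rintro (h | h)
        · rw [h]
          exact ⟨h1, h2, Or.inl (by rwa [add_comm] at h3)⟩
        · rw [h]
          refine ⟨k1, k2, Or.inr ?_⟩
          have h8 : e.v + e.d + e.u * v = e.u * v + e.v + e.d := by ring
          rwa [h8] at k3
    rw [e1]
    by_cases hd : q ∣ e.d
    · rw [if_pos hd]
      have huv : q ∣ e.v + e.d + e.u * u := by
        have h5 : e.v + e.d + e.u * u = (e.v + e.u * u) + e.d := by ring
        rw [h5]
        exact h3.add hd
      rw [← k4 u h1 h2 huv, Set.pair_eq_singleton, Set.ncard_singleton]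
    · rw [if_neg hd]
      refine Set.ncard_pair fun h => hd ?_
      have h5 : e.v + e.d + e.u * v = (e.v + e.u * u) + e.d := by rw [h]; ring
      rw [h5] at k3
      exact (Nat.dvd_add_right h3).1 k3

theorem nf (e : Class) : Pool.Agent.X26.GP.NF (∏ i, F e i) := by
  intro q hq
  by_contra hcon
  push Not at hcon
  have h1 : {u : ℕ | 1 ≤ u ∧ u ≤ q ∧ Divides e q u} = (Finset.Icc 1 q : Finset ℕ) := by
    ext u
    rw [Set.mem_ofPred_eq, Finset.mem_coe, Finset.mem_Icc]
    refine ⟨fun h => ⟨h.1, h.2.1⟩, fun h => ⟨h.1, h.2, ?_⟩⟩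
    have h2 := hcon u
    rw [prod_eval] at h2
    exact (Nat.Prime.dvd_mul hq).1 (Int.natCast_dvd_natCast.1 h2)
  have h2 : nu e q = q := by
    rw [← nu_eq e q hq]
    unfold Pool.Agent.Helper269.nuR
    rw [h1, Set.ncard_coe_finset, Nat.card_Icc]
    omega
  unfold nu at h2
  have h3 := hq.two_le
  split_ifs at h2 with h4 h5
  · omega
  · omega
  · exact h5 (h2 ▸ e.d_even.two_dvd)

theorem expected_eq (e : Class) (X : ℕ) :
    expected (nu e) X = X * Pool.Agent.X69.Ric.prR (Pool.Agent.Helper269.nuR (Divides e)) X := by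
  unfold expected Pool.Agent.X69.Ric.prR
  congr 1
  apply Finset.prod_congr rfl
  intro q hq
  rw [nu_eq e q (Finset.mem_filter.1 hq).2]

/-- **Common patterns.** -/
theorem result :
    (∀ (M m k : ℕ) (κ δ : ℝ), 0 < κ → κ ≤ 1 → 0 < δ →
      ∃ c : ℝ, 0 < c ∧ ∃ B X₀ : ℕ, ∀ X D : ℕ, X₀ ≤ X → Real.log X ^ B ≤ D → D ≤ X →
      ∀ (e : Fin M → Class) (A : Fin M → ℕ) (S : Fin M → Set ℕ),
        (∀ j, S j ⊆ Set.Ioc (A j) (A j + X)) → (∀ j, ∀ t ∈ S j, Rough (e j) ((X : ℝ) ^ κ) t) →
        (∀ j, δ * expected (nu (e j)) X ≤ ((S j).ncard : ℝ)) →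
        c * (D : ℝ) ^ m ≤ ({h : Fin m → ℕ | (∀ i, 1 ≤ h i ∧ h i ≤ D) ∧ Common e c k X S h}.ncard : ℝ)) ∧
    ∀ s : ℝ, ∃ ρ : ℕ, 1 ≤ ρ ∧ ∃ X₀ : ℕ, ∀ (X A : ℕ) (e : Class), X₀ ≤ X →
        ((e.u * (A + X) + e.v + e.d : ℕ) : ℝ) ≤ (X : ℝ) ^ s →
        1 / 2 * expected (nu e) X ≤ ((Almost e ρ X ∩ Set.Ioc A (A + X)).ncard : ℝ) ∧
        ∀ t ∈ Almost e ρ X ∩ Set.Ioc A (A + X), Rough e ((X : ℝ) ^ (1 / (ρ : ℝ))) t := by
  refine ⟨fun M m k κ δ hκ hκ1 hδ => ?_, fun a => ?_⟩
  · obtain ⟨c, hc, B, X₀, h⟩ := Pool.Agent.Helper269.uni_common (g := 2) M m k 2 κ δ hκ hκ1 hδ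
    refine ⟨c, hc, B, X₀, fun X D hX hBD hDX e A S hS hSR hSc => ?_⟩
    have h1 := h X D hX hBD hDX (fun j => F (e j)) (fun j => Divides (e j)) (fun j => deg (e j))
      (fun j => nf (e j)) (fun j => hR (e j)) A S hS (fun j n hn q hq hd => hSR j n hn q hq hd)
      (fun j => by
        rw [← expected_eq]
        exact hSc j)
    exact h1
  · obtain ⟨ρ, hρ, X₀, h⟩ := Pool.Agent.Helper269.uni_low (g := 2) 2 (2 * a)
    refine ⟨ρ, hρ, max X₀ 1, fun X A e hX hb => ⟨?_, fun n hn => hn.1.2⟩⟩
    have hX1 : 1 ≤ X := (le_max_right _ _).trans hX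
    have hX0 : (0 : ℝ) < X := by exact_mod_cast hX1
    have h1 := h X A ((le_max_left _ _).trans hX) (F e) (Divides e) (deg e) (nf e) (hR e) (fun n hn1 hn2 => by
      rw [prod_eval, Int.cast_natCast, abs_of_nonneg (Nat.cast_nonneg _), Nat.cast_mul, two_mul, Real.rpow_add hX0]
      have h0 : e.u * n ≤ e.u * (A + X) := Nat.mul_le_mul_left _ hn2
      have h2 : ((e.u * n + e.v : ℕ) : ℝ) ≤ (X : ℝ) ^ a := by
        refine le_trans ?_ hb
        exact_mod_cast (by omega : e.u * n + e.v ≤ e.u * (A + X) + e.v + e.d)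
      have h3 : ((e.u * n + e.v + e.d : ℕ) : ℝ) ≤ (X : ℝ) ^ a := by
        refine le_trans ?_ hb
        exact_mod_cast (by omega : e.u * n + e.v + e.d ≤ e.u * (A + X) + e.v + e.d)
      exact mul_le_mul h2 h3 (Nat.cast_nonneg _) (by positivity))
    rw [← expected_eq] at h1
    refine h1.trans (Nat.cast_le.2 ?_)
    apply Set.ncard_le_ncard _ ((Set.finite_Ioc A (A + X)).subset Set.inter_subset_right)
    rintro n ⟨h2, h3, h4, h5⟩
    rw [prod_eval, Int.natAbs_natCast] at h3
    refine ⟨⟨?_, ?_⟩, h2⟩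
    · rw [ArithmeticFunction.cardFactors_apply]
      exact h3
    · intro q hq hd
      apply h5 q hq
      rw [prod_eval, Int.natCast_dvd_natCast]
      rcases hd with hd | hd
      · exact hd.mul_right _
      · exact hd.mul_left _

end Pool.Agent.Results.MP_92ef0c_nt.CommonPatterns
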