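import Pool.Agent.X69.Ric.PackP
import Pool.Agent.X69.Ric.PatC
import Pool.Agent.Helper269.Lin

/-!
# Gaps and correlations of the primes `n` with prime or almost prime `a_i n + 1`

Let `{a_1, ..., a_s}` be admissible and let `A` be an arbitrary set of positive integers `n` for which all prime
factors of `n` and of the `a_i n + 1` are at least `n ^ δ`, for example an arbitrary set of primes `n` for which all
`a_i n + 1` are prime.
(1) If `A` has at least `c X / (log X) ^ (s + 1)` elements up to `X`, for all large `X` (this is the lower bound of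
the question, if `A` is the set of all these primes), then the set of the limit points of the vectors of `m`
consecutive gaps of `A`, normalised by `(log) ^ (s + 1)`, has positive Lebesgue measure, for every `m ≥ 1`, the
additive energy of the first `N` elements of `A` is at most `C N ^ 3 / (log N) ^ (s + 1)`, and the fractional parts of
`α n`, `n ∈ A`, have Poissonian pair correlations for almost all `α`.
(2) If `A` has at least `c Y / (log X) ^ (s + 1)` elements in an interval `(Z, Z + Y]`, `Y ≥ X ^ θ`, and no prime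
factors less than `X ^ δ` occur there, then at least `κ (log X) ^ ((s + 1) m)` different vectors `h` with entries at
most `K (log X) ^ (s + 1)` are the vector of the next `m` gaps of at least `κ Y / (log X) ^ ((s + 1) (m + 1))`
elements of `A` of the interval.
(3) For all large `r` the set of the primes `n` for which all `a_i n + 1` have at most `r` prime factors, all of them
larger than `n ^ (1 / r)`, satisfies all the conditions in (1), and (2) holds for it in all the intervals `(X, 2 X]`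
with large `X`.

The proof specialises the theorems of `Pool.Agent.X69.Ric` of the starting library.
-/

set_option autoImplicit false

namespace Pool.Agent.Results.MP_bca3e5_nt.GapVectors

open Filter Topology Finset MeasureTheory

/-- The `a i` are distinct positive integers, and no prime divides `n ∏ (a i n + 1)` for all `n ≥ 1`. -/
def Admissible {s : ℕ} (a : Fin s → ℕ) : Prop :=
  (∀ i, 1 ≤ a i) ∧ Function.Injective a ∧
    ∀ p : ℕ, p.Prime → ∃ n : ℕ, 1 ≤ n ∧ ¬ p ∣ n * ∏ i, (a i * n + 1)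

/-- The element number `k` of `A` in increasing order, beginning with the number `0`. -/
noncomputable def el (A : Set ℕ) (k : ℕ) : ℕ := Nat.nth (· ∈ A) k

/-- The vector of the `m` gaps after the element number `k`, divided by the power `(s + 1)` of the logarithm. -/
noncomputable def gaps (s : ℕ) (A : Set ℕ) (m k : ℕ) : Fin m → ℝ := fun i =>
  ((el A (k + i + 1) : ℝ) - el A (k + i)) / Real.log (el A (k + i)) ^ (s + 1)

/-- The number of the quadruples `(i, j, k, l)` of numbers less than `N` with `el i + el j = el k + el l`. -/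
noncomputable def energy (A : Set ℕ) (N : ℕ) : ℕ :=
  (((range N ×ˢ range N) ×ˢ (range N ×ˢ range N)).filter
    (fun p => el A p.1.1 + el A p.1.2 = el A p.2.1 + el A p.2.2)).card

/-- The fractional parts of the `α a`, `a ∈ A`, have Poissonian pair correlations. -/
def PoissonPairs (A : Set ℕ) (α : ℝ) : Prop := ∀ s : ℝ, 0 < s →
  Tendsto (fun N : ℕ => (1 / (N : ℝ)) * ((((range N) ×ˢ (range N)).filter
    (fun p => p.1 ≠ p.2 ∧
      |(el A p.1 : ℝ) * α - (el A p.2 : ℝ) * α -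
        round ((el A p.1 : ℝ) * α - (el A p.2 : ℝ) * α)| < s / N)).card : ℝ))
    atTop (𝓝 (2 * s))

/-- `A` has at least `c X / (log X) ^ ((s + 1))` elements up to `X`, for all large `X`. -/
def Dense (s : ℕ) (A : Set ℕ) : Prop :=
  ∃ c : ℝ, 0 < c ∧ ∀ᶠ X : ℕ in atTop, c * X / Real.log X ^ (s + 1) ≤ ((A ∩ Set.Icc 1 X).ncard : ℝ)

/-- `h` is the vector of the `m` gaps of `A` that follow `n`: all its entries are positive, and the elements of `A`
from `n` to `n + h 0 + ... + h (m - 1)` are exactly the `n + h 0 + ... + h (j - 1)`, `j ≤ m`. -/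
def Next (A : Set ℕ) {m : ℕ} (h : Fin m → ℕ) (n : ℕ) : Prop :=
  (∀ i, 0 < h i) ∧ ∀ x, (x ∈ A ∧ n ≤ x ∧ x ≤ n + ∑ i, h i) ↔
    ∃ j : ℕ, j ≤ m ∧ x = n + ∑ i ∈ (univ : Finset (Fin m)).filter (fun i : Fin m => (i : ℕ) < j), h i

/-- The number of the elements of `A` in `(Z, Z + Y]` followed by the gaps `h`. -/
noncomputable def occurrences (A : Set ℕ) (Z Y : ℕ) {m : ℕ} (h : Fin m → ℕ) : ℕ :=
  {n | n ∈ A ∧ n ∈ Set.Ioc Z (Z + Y) ∧ Next A h n}.ncard

/-- The number of the vectors `h` of `m` positive integers up to `K (log X) ^ ((s + 1))` which occur at least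
`κ Y / (log X) ^ ((s + 1) * (m + 1))` times in `(Z, Z + Y]`. -/
noncomputable def frequent (s : ℕ) (A : Set ℕ) (X Z Y m : ℕ) (K κ : ℝ) : ℕ :=
  {h : Fin m → ℕ | (∀ i, 0 < h i ∧ (h i : ℝ) ≤ K * Real.log X ^ (s + 1)) ∧
    κ * Y / Real.log X ^ ((s + 1) * (m + 1)) ≤ (occurrences A Z Y h : ℝ)}.ncard

/-- The primes `p` for which all the `a i p + 1` have at most `r` prime factors, counted with multiplicity, all of
them larger than `p ^ (1 / r)`. -/
def Almost {s : ℕ} (a : Fin s → ℕ) (r : ℕ) : Set ℕ := 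
  {p | p.Prime ∧ ∀ i, ArithmeticFunction.cardFactors (a i * p + 1) ≤ r ∧
    ∀ q : ℕ, q.Prime → q ∣ a i * p + 1 → (p : ℝ) ^ (1 / (r : ℝ)) < q}

/-- the values -/
def V {s : ℕ} (a : Fin s → ℕ) (n : ℕ) (i : Fin s) : ℕ := a i * n + 1

theorem hR {s : ℕ} (a : Fin s → ℕ) (q n : ℕ) : (q ∣ n ∨ ∃ i, q ∣ a i * n + 1) ↔ (q ∣ n ∨ ∃ i, q ∣ V a n i) :=
  Iff.rfl

theorem almost_eq {s : ℕ} (a : Fin s → ℕ) (r : ℕ) : Almost a r = Pool.Agent.X69.Ric.AVp (V a) r := rfl

theorem psys {s : ℕ} (a : Fin s → ℕ) (ha : Admissible a) : Pool.Agent.X69.Ric.PSys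
    (fun i : Fin s => Pool.Agent.W182.PW.lin (a i) (((fun _ => 1 : Fin s → ℕ) i : ℕ) : ℤ)) (V a) := by
  obtain ⟨h1, h2, h3⟩ := ha
  refine Pool.Agent.Helper269.psys_lin a (fun _ => 1 : Fin s → ℕ) h1 (fun i => Nat.coprime_one_right _)
    (fun i j h _ => h2 h) (fun i h => one_ne_zero h.2) (fun p hp => ?_)
  obtain ⟨n, -, hn⟩ := h3 p hp
  refine ⟨n, fun h => hn (h.mul_right _), fun i h => hn (Dvd.dvd.mul_left ?_ _)⟩
  exact dvd_trans h (Finset.dvd_prod_of_mem (fun i => a i * n + 1) (Finset.mem_univ i))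

/-- **Gaps and correlations.** -/
theorem result (s : ℕ) (hs : 1 ≤ s) (a : Fin s → ℕ) (ha : Admissible a) :
    (∀ (A : Set ℕ) (δ : ℝ), 0 < δ →
      (∀ n ∈ A, ∀ q : ℕ, q.Prime → (q ∣ n ∨ ∃ i, q ∣ a i * n + 1) → (n : ℝ) ^ δ ≤ q) → Dense s A →
      (∀ m : ℕ, 1 ≤ m → 0 < volume {t : Fin m → ℝ | MapClusterPt t atTop (gaps s A m)}) ∧
      (∃ C : ℝ, 0 < C ∧ ∀ᶠ N : ℕ in atTop, (energy A N : ℝ) ≤ C * ((N : ℝ) ^ 3 / Real.log N ^ (s + 1))) ∧
      ∀ᵐ α : ℝ, PoissonPairs A α) ∧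
    (∀ (δ θ c : ℝ) (m : ℕ), 0 < δ → 0 < θ → 0 < c → 1 ≤ m → ∃ K : ℝ, 0 < K ∧ ∃ κ : ℝ, 0 < κ ∧
      ∀ᶠ X : ℕ in atTop, ∀ Z Y : ℕ, (X : ℝ) ^ θ ≤ Y → ∀ A : Set ℕ,
      (∀ n ∈ A, n ∈ Set.Ioc Z (Z + Y) → ∀ q : ℕ, q.Prime → (q ∣ n ∨ ∃ i, q ∣ a i * n + 1) →
        (X : ℝ) ^ δ ≤ q) →
      c * Y / Real.log X ^ (s + 1) ≤ ((A ∩ Set.Ioc Z (Z + Y)).ncard : ℝ) →
      κ * Real.log X ^ ((s + 1) * m) ≤ (frequent s A X Z Y m K κ : ℝ)) ∧
    ∃ r₀ : ℕ, 2 ≤ r₀ ∧ ∀ r : ℕ, r₀ ≤ r → Dense s (Almost a r) ∧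
      (∀ n ∈ Almost a r, ∀ q : ℕ, q.Prime → (q ∣ n ∨ ∃ i, q ∣ a i * n + 1) →
        (n : ℝ) ^ (1 / (r : ℝ)) ≤ q) ∧
      ∀ m : ℕ, 1 ≤ m → ∃ K : ℝ, 0 < K ∧ ∃ κ : ℝ, 0 < κ ∧ ∀ᶠ X : ℕ in atTop,
        κ * Real.log X ^ ((s + 1) * m) ≤ (frequent s (Almost a r) X X X m K κ : ℝ) := by
  have H := psys a ha
  refine ⟨fun A δ hδ hA hD => ?_, fun δ θ c m hδ hθ hc hm => ?_, ?_⟩
  · have hA' : ∀ n ∈ A, ∀ q : ℕ, q.Prime → (q ∣ n ∨ ∃ i, q ∣ V a n i) → (n : ℝ) ^ δ ≤ q :=
      fun n hn q hq h => hA n hn q hq ((hR a q n).2 h)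
    have hM : Pool.Agent.X69.Ric.Many (s + 1) A := hD
    obtain ⟨h1, h2⟩ := H.ppc hs A δ hδ hA' hM
    exact ⟨fun m hm => H.gaps A δ hδ hA' hM m hm, h1, h2⟩
  · obtain ⟨K, hK, κ, hκ, h⟩ := H.frq δ θ c hδ hθ hc m hm
    refine ⟨K, hK, κ, hκ, ?_⟩
    filter_upwards [h] with X hX Z Y hXY A hA hlow
    exact hX Z Y hXY A (fun n hn hnI q hq h => hA n hn hnI q hq ((hR a q n).2 h)) hlow
  · obtain ⟨r₁, hr₁, h1⟩ := H.dyadic
    obtain ⟨r₂, hr₂, h2⟩ := H.many
    refine ⟨max r₁ r₂, hr₁.trans (le_max_left _ _), fun r hr => ?_⟩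
    have hr1 : r₁ ≤ r := (le_max_left _ _).trans hr
    have hr2 : r₂ ≤ r := (le_max_right _ _).trans hr
    have hr3 : 2 ≤ r := hr₁.trans hr1
    have hr0 : (0 : ℝ) < 1 / r := by
      have : (0 : ℝ) < r := by exact_mod_cast (by omega : 0 < r)
      positivity
    have hrough : ∀ n ∈ Almost a r, ∀ q : ℕ, q.Prime → (q ∣ n ∨ ∃ i, q ∣ a i * n + 1) →
        (n : ℝ) ^ (1 / (r : ℝ)) ≤ q := by
      intro n hn q hq h
      rw [almost_eq] at hn
      exact Pool.Agent.X69.Ric.AVp_rough r hr3 n hn q hq ((hR a q n).1 h)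
    refine ⟨?_, hrough, fun m hm => ?_⟩
    · rw [almost_eq]
      exact h2 r hr2
    · obtain ⟨c, hc, h3⟩ := h1 r hr1
      obtain ⟨K, hK, κ, hκ, h⟩ := H.frq (1 / r) 1 c hr0 one_pos hc m hm
      refine ⟨K, hK, κ, hκ, ?_⟩
      filter_upwards [h, h3] with X hX hX3
      refine hX X X (by simp) (Almost a r) ?_ ?_
      · intro n hn hnI q hq hd
        refine le_trans ?_ (hrough n hn q hq ((hR a q n).2 hd))
        exact Real.rpow_le_rpow (Nat.cast_nonneg _) (by exact_mod_cast hnI.1.le) hr0.le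
      · rw [almost_eq]
        exact hX3

end Pool.Agent.Results.MP_bca3e5_nt.GapVectors
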