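import Pool.Agent.Helper269.Uni
import Pool.Agent.W182.PW.Lin

/-!
# Common patterns in dense sets of prime solutions of several equations `a p - b q = c`

Let `a, b ≥ 1` and `c ≠ 0` be pairwise coprime and not all odd, and `a x - b y = c` with `x, y ≥ 0`. Then the
`(x + b t, y + a t)`, `t = 0, 1, 2, ...`, are solutions of the equation `a p - b q = c`. Write
`E(X) = X ∏ (1 - ν(q) / q)` (product over the primes `q ≤ X`), where `ν(q) = 1` if `q ∣ a b c` and `ν(q) = 2`
otherwise; this has the order of magnitude predicted by Hardy and Littlewood for the number of the `t ≤ X` which give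
prime solutions, if `X` is large in terms of the equation.
(1) Consider `M` arbitrary such equations, with coefficients of arbitrary size, and let `S_j` be an arbitrary set of
numbers `t` in an arbitrary interval of length `X`, for which both entries of the solution `t` of the `j`-th equation
have no prime factors up to `X ^ κ` (for example a set of prime solutions). If `S_j` has at least `δ E_j(X)` elements,
for all `j`, then the `S_j` have common difference vectors: for a positive proportion of the vectors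
`h ∈ {1, ..., D} ^ m` the set `S_j` contains for every `P ⊆ {0, ..., k - 1} ^ m` with `0 ∈ P` the number of patterns
`t + f · h`, `f ∈ P`, which is predicted for the `j`-th equation, for all `j` at once; here `D` is arbitrary with
`(log X) ^ B ≤ D ≤ X`, and all constants are independent of the equations. For `m = 1`: for a positive proportion of
the integers `d ≤ D` all the equations have `k`-term arithmetic progressions of such solutions with the difference
`(b d, a d)`.
(2) The `t` in `(A, A + X]` for which the product `(x + b t) (y + a t)` has at most `ρ` prime factors, all of them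
larger than `X ^ (1 / ρ)`, are such a set, if the solutions are at most `X ^ h`, so that (1) is unconditional for
their dense subsets, in short intervals, and uniformly in the equation.

The proof specialises the theorems of `Pool.Agent.X26` of the starting library.
-/

set_option autoImplicit false

namespace Pool.Agent.Results.MP_bf63dc_nt.CommonPatterns

open Filter

/-- An equation `a p - b q = c` as in the question, with a solution `(x, y)`. -/
structure Equation where
  /-- the first coefficient -/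
  a : ℕ
  /-- the second coefficient -/
  b : ℕ
  /-- the right hand side -/
  c : ℤ
  /-- the first entry of the solution -/
  x : ℕ
  /-- the second entry of the solution -/
  y : ℕ
  a_pos : 1 ≤ a
  b_pos : 1 ≤ b
  c_ne : c ≠ 0
  cop_ab : Nat.Coprime a b
  cop_ac : Nat.Coprime a c.natAbs
  cop_bc : Nat.Coprime b c.natAbs
  even : 2 ∣ a * b * c.natAbs
  sol : (a : ℤ) * x - b * y = c

/-- All prime factors of the two entries of the solution `(x + b t, y + a t)` are larger than `z`. -/
def Rough (e : Equation) (z : ℝ) (t : ℕ) : Prop :=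
  ∀ q : ℕ, q.Prime → (q ∣ e.x + e.b * t ∨ q ∣ e.y + e.a * t) → z < q

/-- The integer `f · h = f 0 * h 0 + f 1 * h 1 + ...`. -/
def dot {m : ℕ} (f h : Fin m → ℕ) : ℕ := ∑ i, f i * h i

/-- The number of the residues `u` modulo `q` such that `q` divides an entry of the solution with number
`w = u + f · h` for some `f ∈ P`. -/
noncomputable def omega (e : Equation) {m : ℕ} (h : Fin m → ℕ) (P : Finset (Fin m → ℕ)) (q : ℕ) : ℕ :=
  {u : ℕ | 1 ≤ u ∧ u ≤ q ∧ ∃ f ∈ P, (q ∣ e.x + e.b * (u + dot f h) ∨ q ∣ e.y + e.a * (u + dot f h))}.ncard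

/-- `X` times the product of the `1 - w q / q` over the primes `q ≤ X`. -/
noncomputable def expected (w : ℕ → ℕ) (X : ℕ) : ℝ :=
  X * ∏ q ∈ (Finset.Icc 1 X).filter Nat.Prime, (1 - (w q : ℝ) / q)

/-- `1` if `q` divides `a b c`, and `2` otherwise. -/
def nu (e : Equation) (q : ℕ) : ℕ := if q ∣ e.a * e.b * e.c.natAbs then 1 else 2

/-- The number of the `t ∈ S` such that all the `t + f · h`, `f ∈ P`, are in `S`. -/
noncomputable def count (S : Set ℕ) {m : ℕ} (h : Fin m → ℕ) (P : Finset (Fin m → ℕ)) : ℕ :=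
  {t : ℕ | t ∈ S ∧ ∀ f ∈ P, t + dot f h ∈ S}.ncard

/-- For all `P ⊆ {0, ..., k - 1} ^ m` with `0 ∈ P`: the integers `f · h`, `f ∈ P`, are different, and for all `j`
the conditions modulo the primes are solvable and the set `S j` contains at least `c` times the expected number of
the patterns `t + f · h`, `f ∈ P`. -/
def Common {M m : ℕ} (e : Fin M → Equation) (c : ℝ) (k X : ℕ) (S : Fin M → Set ℕ) (h : Fin m → ℕ) : Prop :=
  ∀ P : Finset (Fin m → ℕ), (∀ f ∈ P, ∀ i, f i < k) → (fun _ => 0) ∈ P →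
    Set.InjOn (fun f => dot f h) (P : Set (Fin m → ℕ)) ∧
      ∀ j, (∀ q : ℕ, q.Prime → omega (e j) h P q < q) ∧
        c * expected (omega (e j) h P) X ≤ (count (S j) h P : ℝ)

/-- The `t` for which the product of the entries of the solution has at most `ρ` prime factors, counted with
multiplicity, all of them larger than `X ^ (1 / ρ)`. -/
def Almost (e : Equation) (ρ X : ℕ) : Set ℕ :=
  {t | ArithmeticFunction.cardFactors ((e.x + e.b * t) * (e.y + e.a * t)) ≤ ρ ∧
    ∀ q : ℕ, q.Prime → (q ∣ e.x + e.b * t ∨ q ∣ e.y + e.a * t) → (X : ℝ) ^ (1 / (ρ : ℝ)) < q}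

/-- the polynomials -/
noncomputable def F (e : Equation) (i : Fin 2) : Polynomial ℤ :=
  if i = 0 then Pool.Agent.W182.PW.lin e.b e.x else Pool.Agent.W182.PW.lin e.a e.y

/-- the relation -/
def R (e : Equation) (q t : ℕ) : Prop := q ∣ e.x + e.b * t ∨ q ∣ e.y + e.a * t

theorem F_eval (e : Equation) (t : ℕ) : (F e 0).eval (t : ℤ) = ((e.x + e.b * t : ℕ) : ℤ) ∧
    (F e 1).eval (t : ℤ) = ((e.y + e.a * t : ℕ) : ℤ) := by
  constructor
  · unfold F
    rw [if_pos rfl, Pool.Agent.W182.PW.lin_eval]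
    push_cast
    ring
  · unfold F
    rw [if_neg (by decide), Pool.Agent.W182.PW.lin_eval]
    push_cast
    ring

theorem prod_eval (e : Equation) (t : ℕ) :
    (∏ i, F e i).eval (t : ℤ) = (((e.x + e.b * t) * (e.y + e.a * t) : ℕ) : ℤ) := by
  rw [Polynomial.eval_prod, Fin.prod_univ_two, (F_eval e t).1, (F_eval e t).2, Nat.cast_mul]

theorem hR (e : Equation) : ∀ q n : ℕ, 1 ≤ n → (R e q n ↔ ∃ i, (q : ℤ) ∣ (F e i).eval (n : ℤ)) := by
  intro q n _
  unfold R
  constructor
  · rintro (h | h)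
    · exact ⟨0, by rw [(F_eval e n).1]; exact Int.natCast_dvd_natCast.2 h⟩
    · exact ⟨1, by rw [(F_eval e n).2]; exact Int.natCast_dvd_natCast.2 h⟩
  · rintro ⟨i, hi⟩
    fin_cases i
    · have h2 : (q : ℤ) ∣ (F e 0).eval (n : ℤ) := hi
      rw [(F_eval e n).1] at h2
      exact Or.inl (Int.natCast_dvd_natCast.1 h2)
    · have h2 : (q : ℤ) ∣ (F e 1).eval (n : ℤ) := hi
      rw [(F_eval e n).2] at h2
      exact Or.inr (Int.natCast_dvd_natCast.1 h2)

theorem deg (e : Equation) : (∏ i, F e i).natDegree ≤ 2 := by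
  refine (Polynomial.natDegree_prod_le _ _).trans ?_
  rw [Fin.sum_univ_two]
  have h0 : (F e 0).natDegree ≤ 1 := by
    unfold F Pool.Agent.W182.PW.lin
    rw [if_pos rfl]
    exact Polynomial.natDegree_linear_le
  have h1 : (F e 1).natDegree ≤ 1 := by
    unfold F Pool.Agent.W182.PW.lin
    rw [if_neg (by decide)]
    exact Polynomial.natDegree_linear_le
  omega

/-- a linear congruence has exactly one solution -/
theorem root (q x b : ℕ) (hq : q.Prime) (hb : ¬ q ∣ b) : ∃ u : ℕ, (1 ≤ u ∧ u ≤ q ∧ q ∣ x + b * u) ∧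
    ∀ u' : ℕ, 1 ≤ u' → u' ≤ q → q ∣ x + b * u' → u' = u := by
  have hq0 : (0 : ℤ) < q := by exact_mod_cast hq.pos
  obtain ⟨s, v, hsv⟩ := Nat.isCoprime_iff_coprime.2 ((Nat.Prime.coprime_iff_not_dvd hq).2 hb)
  obtain ⟨z, hz1, hz2⟩ := Int.existsUnique_equiv_nat (-x * v) hq0
  have hz1' : z < q := by exact_mod_cast hz1
  have key : (q : ℤ) ∣ x + b * z := by
    obtain ⟨w, hw⟩ := hz2.dvd
    refine ⟨x * s - b * w, ?_⟩
    have h1 : (z : ℤ) = -x * v - q * w := by linarith
    have h2 : v * (b : ℤ) = 1 - s * q := by linarith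
    rw [h1]
    linear_combination (-(x : ℤ)) * h2
  have uniq : ∀ u u' : ℕ, 1 ≤ u → u ≤ q → 1 ≤ u' → u' ≤ q → q ∣ x + b * u → q ∣ x + b * u' → u' = u := by
    intro u u' h1 h2 h3 h4 h5 h6
    have h7 : (q : ℤ) ∣ b * ((u' : ℤ) - u) := by
      have h8 : (q : ℤ) ∣ ((x + b * u' : ℕ) : ℤ) - ((x + b * u : ℕ) : ℤ) :=
        dvd_sub (Int.natCast_dvd_natCast.2 h6) (Int.natCast_dvd_natCast.2 h5)
      have h9 : ((x + b * u' : ℕ) : ℤ) - ((x + b * u : ℕ) : ℤ) = b * ((u' : ℤ) - u) := by
        push_cast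
        ring
      rwa [h9] at h8
    rcases (Nat.prime_iff_prime_int.1 hq).dvd_or_dvd h7 with h8 | h8
    · exact absurd (Int.natCast_dvd_natCast.1 h8) hb
    · have h9 := Int.eq_zero_of_abs_lt_dvd h8 (by rw [abs_lt]; constructor <;> omega)
      omega
  rcases Nat.eq_zero_or_pos z with h0 | h0
  · have h1 : q ∣ x + b * q := by
      have h2 : (q : ℤ) ∣ ((x + b * q : ℕ) : ℤ) := by
        rw [h0] at key
        push_cast
        have h3 := dvd_add key (dvd_mul_left (q : ℤ) b)
        simpa using h3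
      exact Int.natCast_dvd_natCast.1 h2
    exact ⟨q, ⟨hq.pos, le_rfl, h1⟩, fun u' h3 h4 h5 => uniq q u' hq.pos le_rfl h3 h4 h1 h5⟩
  · have h1 : q ∣ x + b * z := by
      have h2 : (q : ℤ) ∣ ((x + b * z : ℕ) : ℤ) := by
        push_cast
        exact key
      exact Int.natCast_dvd_natCast.1 h2
    exact ⟨z, ⟨h0, hz1'.le, h1⟩, fun u' h3 h4 h5 => uniq z u' h0 hz1'.le h3 h4 h1 h5⟩

/-- the relation between the two entries of a solution -/
theorem rel (e : Equation) (t : ℕ) :
    (e.a : ℤ) * ((e.x + e.b * t : ℕ) : ℤ) - e.b * ((e.y + e.a * t : ℕ) : ℤ) = e.c := by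
  rw [← e.sol]
  push_cast
  ring

theorem nu_eq (e : Equation) (q : ℕ) (hq : q.Prime) : Pool.Agent.Helper269.nuR (R e) q = nu e q := by
  have hp := Nat.prime_iff_prime_int.1 hq
  have hcop : ∀ u v : ℕ, Nat.Coprime u v → q ∣ u → ¬ q ∣ v := fun u v huv h1 h2 =>
    hq.one_lt.ne' (Nat.dvd_one.1 (huv ▸ Nat.dvd_gcd h1 h2))
  unfold Pool.Agent.Helper269.nuR nu R
  by_cases hb : q ∣ e.b
  · -- only the second entry matters
    have ha : ¬ q ∣ e.a := hcop _ _ e.cop_ab.symm hb
    have hc : ¬ q ∣ e.c.natAbs := hcop _ _ e.cop_bc hb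
    rw [if_pos ((hb.mul_left _).mul_right _)]
    obtain ⟨u, ⟨h1, h2, h3⟩, h4⟩ := root q e.y e.a hq ha
    have e1 : {u : ℕ | 1 ≤ u ∧ u ≤ q ∧ (q ∣ e.x + e.b * u ∨ q ∣ e.y + e.a * u)} = {u} := by
      ext v
      simp only [Set.mem_ofPred_eq, Set.mem_singleton_iff]
      constructor
      · rintro ⟨h5, h6, h7 | h7⟩
        · exfalso
          apply hc
          rw [← Int.natCast_dvd]
          rw [← rel e v]
          exact dvd_sub ((Int.natCast_dvd_natCast.2 h7).mul_left _)
            ((Int.natCast_dvd_natCast.2 hb).mul_right _)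
        · exact h4 v h5 h6 h7
      · intro h
        rw [h]
        exact ⟨h1, h2, Or.inr h3⟩
    rw [e1, Set.ncard_singleton]
  · by_cases ha : q ∣ e.a
    · have hc : ¬ q ∣ e.c.natAbs := hcop _ _ e.cop_ac ha
      rw [if_pos ((ha.mul_right _).mul_right _)]
      obtain ⟨u, ⟨h1, h2, h3⟩, h4⟩ := root q e.x e.b hq hb
      have e1 : {u : ℕ | 1 ≤ u ∧ u ≤ q ∧ (q ∣ e.x + e.b * u ∨ q ∣ e.y + e.a * u)} = {u} := by
        ext v
        simp only [Set.mem_ofPred_eq, Set.mem_singleton_iff]
        constructor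
        · rintro ⟨h5, h6, h7 | h7⟩
          · exact h4 v h5 h6 h7
          · exfalso
            apply hc
            rw [← Int.natCast_dvd]
            rw [← rel e v]
            exact dvd_sub ((Int.natCast_dvd_natCast.2 ha).mul_right _)
              ((Int.natCast_dvd_natCast.2 h7).mul_left _)
        · intro h
          rw [h]
          exact ⟨h1, h2, Or.inl h3⟩
      rw [e1, Set.ncard_singleton]
    · obtain ⟨u, ⟨h1, h2, h3⟩, h4⟩ := root q e.x e.b hq hb
      obtain ⟨v, ⟨k1, k2, k3⟩, k4⟩ := root q e.y e.a hq ha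
      have e1 : {u : ℕ | 1 ≤ u ∧ u ≤ q ∧ (q ∣ e.x + e.b * u ∨ q ∣ e.y + e.a * u)} = {u, v} := by
        ext w
        simp only [Set.mem_ofPred_eq, Set.mem_insert_iff, Set.mem_singleton_iff]
        constructor
        · rintro ⟨h5, h6, h7 | h7⟩
          · exact Or.inl (h4 w h5 h6 h7)
          · exact Or.inr (k4 w h5 h6 h7)
        · rintro (h | h)
          · rw [h]
            exact ⟨h1, h2, Or.inl h3⟩
          · rw [h]
            exact ⟨k1, k2, Or.inr k3⟩
      rw [e1]
      by_cases hc : q ∣ e.c.natAbs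
      · rw [if_pos (hc.mul_left _)]
        have huv : q ∣ e.y + e.a * u := by
          have h5 : (q : ℤ) ∣ e.b * ((e.y + e.a * u : ℕ) : ℤ) := by
            have h6 := dvd_sub ((Int.natCast_dvd_natCast.2 h3).mul_left (e.a : ℤ)) (Int.natCast_dvd.2 hc)
            have h7 := rel e u
            have h8 : (e.a : ℤ) * ((e.x + e.b * u : ℕ) : ℤ) - e.c = e.b * ((e.y + e.a * u : ℕ) : ℤ) := by
              linarith
            rwa [h8] at h6
          rcases hp.dvd_or_dvd h5 with h6 | h6
          · exact absurd (Int.natCast_dvd_natCast.1 h6) hb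
          · exact Int.natCast_dvd_natCast.1 h6
        rw [← k4 u h1 h2 huv, Set.pair_eq_singleton, Set.ncard_singleton]
      · rw [if_neg (fun h => by
          rcases (Nat.Prime.dvd_mul hq).1 h with h5 | h5
          · rcases (Nat.Prime.dvd_mul hq).1 h5 with h6 | h6
            · exact ha h6
            · exact hb h6
          · exact hc h5)]
        refine Set.ncard_pair fun h => hc ?_
        rw [← Int.natCast_dvd, ← rel e u]
        refine dvd_sub ((Int.natCast_dvd_natCast.2 h3).mul_left _) ((Int.natCast_dvd_natCast.2 ?_).mul_left _)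
        rw [h]
        exact k3

theorem nf (e : Equation) : Pool.Agent.X26.GP.NF (∏ i, F e i) := by
  intro q hq
  by_contra hcon
  push Not at hcon
  have h1 : {u : ℕ | 1 ≤ u ∧ u ≤ q ∧ R e q u} = (Finset.Icc 1 q : Finset ℕ) := by
    ext u
    rw [Set.mem_ofPred_eq, Finset.mem_coe, Finset.mem_Icc]
    refine ⟨fun h => ⟨h.1, h.2.1⟩, fun h => ⟨h.1, h.2, ?_⟩⟩
    have h2 := hcon u
    rw [prod_eval] at h2
    exact (Nat.Prime.dvd_mul hq).1 (Int.natCast_dvd_natCast.1 h2)
  have h2 : nu e q = q := by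
    rw [← nu_eq e q hq]
    unfold Pool.Agent.Helper269.nuR
    rw [h1, Set.ncard_coe_finset, Nat.card_Icc]
    omega
  unfold nu at h2
  have h3 := hq.two_le
  split_ifs at h2 with h4
  · omega
  · exact h4 (h2 ▸ e.even)

theorem expected_eq (e : Equation) (X : ℕ) :
    expected (nu e) X = X * Pool.Agent.X69.Ric.prR (Pool.Agent.Helper269.nuR (R e)) X := by
  unfold expected Pool.Agent.X69.Ric.prR
  congr 1
  apply Finset.prod_congr rfl
  intro q hq
  rw [nu_eq e q (Finset.mem_filter.1 hq).2]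

/-- **Common patterns.** -/
theorem result :
    (∀ (M m k : ℕ) (κ δ : ℝ), 0 < κ → κ ≤ 1 → 0 < δ →
      ∃ c : ℝ, 0 < c ∧ ∃ B X₀ : ℕ, ∀ X D : ℕ, X₀ ≤ X → Real.log X ^ B ≤ D → D ≤ X →
      ∀ (e : Fin M → Equation) (A : Fin M → ℕ) (S : Fin M → Set ℕ),
        (∀ j, S j ⊆ Set.Ioc (A j) (A j + X)) → (∀ j, ∀ t ∈ S j, Rough (e j) ((X : ℝ) ^ κ) t) →
        (∀ j, δ * expected (nu (e j)) X ≤ ((S j).ncard : ℝ)) →
        c * (D : ℝ) ^ m ≤ ({h : Fin m → ℕ | (∀ i, 1 ≤ h i ∧ h i ≤ D) ∧ Common e c k X S h}.ncard : ℝ)) ∧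
    ∀ a : ℝ, ∃ ρ : ℕ, 1 ≤ ρ ∧ ∃ X₀ : ℕ, ∀ (X A : ℕ) (e : Equation), X₀ ≤ X →
        ((e.x + e.b * (A + X) : ℕ) : ℝ) ≤ (X : ℝ) ^ a → ((e.y + e.a * (A + X) : ℕ) : ℝ) ≤ (X : ℝ) ^ a →
        1 / 2 * expected (nu e) X ≤ ((Almost e ρ X ∩ Set.Ioc A (A + X)).ncard : ℝ) ∧
        ∀ t ∈ Almost e ρ X ∩ Set.Ioc A (A + X), Rough e ((X : ℝ) ^ (1 / (ρ : ℝ))) t := by
  refine ⟨fun M m k κ δ hκ hκ1 hδ => ?_, fun a => ?_⟩
  · obtain ⟨c, hc, B, X₀, h⟩ := Pool.Agent.Helper269.uni_common (g := 2) M m k 2 κ δ hκ hκ1 hδ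
    refine ⟨c, hc, B, X₀, fun X D hX hBD hDX e A S hS hSR hSc => ?_⟩
    have h1 := h X D hX hBD hDX (fun j => F (e j)) (fun j => R (e j)) (fun j => deg (e j))
      (fun j => nf (e j)) (fun j => hR (e j)) A S hS (fun j n hn q hq hd => hSR j n hn q hq hd)
      (fun j => by
        rw [← expected_eq]
        exact hSc j)
    exact h1
  · obtain ⟨ρ, hρ, X₀, h⟩ := Pool.Agent.Helper269.uni_low (g := 2) 2 (2 * a)
    refine ⟨ρ, hρ, max X₀ 1, fun X A e hX hb1 hb2 => ⟨?_, fun n hn => hn.1.2⟩⟩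
    have hX1 : 1 ≤ X := (le_max_right _ _).trans hX
    have hX0 : (0 : ℝ) < X := by exact_mod_cast hX1
    have h1 := h X A ((le_max_left _ _).trans hX) (F e) (R e) (deg e) (nf e) (hR e) (fun n hn1 hn2 => by
      rw [prod_eval, Int.cast_natCast, abs_of_nonneg (Nat.cast_nonneg _), Nat.cast_mul, two_mul, Real.rpow_add hX0]
      have h2 : ((e.x + e.b * n : ℕ) : ℝ) ≤ (X : ℝ) ^ a := by
        refine le_trans ?_ hb1
        exact_mod_cast Nat.add_le_add_left (Nat.mul_le_mul_left _ hn2) _
      have h3 : ((e.y + e.a * n : ℕ) : ℝ) ≤ (X : ℝ) ^ a := by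
        refine le_trans ?_ hb2
        exact_mod_cast Nat.add_le_add_left (Nat.mul_le_mul_left _ hn2) _
      exact mul_le_mul h2 h3 (Nat.cast_nonneg _) (by positivity))
    rw [← expected_eq] at h1
    refine h1.trans (Nat.cast_le.2 ?_)
    apply Set.ncard_le_ncard _ ((Set.finite_Ioc A (A + X)).subset Set.inter_subset_right)
    rintro n ⟨h2, h3, h4, h5⟩
    rw [prod_eval, Int.natAbs_natCast] at h3
    refine ⟨⟨?_, ?_⟩, h2⟩
    · rw [ArithmeticFunction.cardFactors_apply]
      exact h3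
    · intro q hq hd
      apply h5 q hq
      rw [prod_eval, Int.natCast_dvd_natCast]
      rcases hd with hd | hd
      · exact hd.mul_right _
      · exact hd.mul_left _

end Pool.Agent.Results.MP_bf63dc_nt.CommonPatterns
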