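import Pool.Agent.X69.Ric.PatC
import Pool.Agent.Helper269.Lin

/-!
# Patterns in the prime triples and in the almost prime triples

Let `(a, b)` be `(2, 6)` or `(4, 6)`.
(1) All but at most `ε X / log ^ 3 X` elements of an arbitrary set `S` of integers `n` in an interval
`(A, A + X]`, for which `n`, `n + a` and `n + b` have no prime factors up to `X ^ κ` (for example the set of the first
members of all the prime triples `p, p + a, p + b` of the interval), are centres of patterns in `S` of the predicted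
number, with differences up to `D`, for every `D ≥ (log X) ^ B`.
(2) `M` such sets `S_j` in `M` arbitrary intervals of length `X`, with at least `δ X / log ^ 3 X` elements each, have
common difference vectors: for a positive proportion of the vectors `h ∈ {1, ..., D} ^ m` the `j`-th set contains for
every `P ⊆ {0, ..., k - 1} ^ m` with `0 ∈ P` the predicted number of patterns `n + f · h`, `f ∈ P`, for all `j` at
once. For `m = 1`: a positive proportion of the integers up to `D` are differences of `k`-term arithmetic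
progressions in all the sets `S_j`.
(3) The primes `p` in `(X, 2 X]`, for which `p + a` and `p + b` have at most `r` prime factors, all of them larger
than `p ^ (1 / r)`, are such a set, so that (1) and (2) are unconditional for them and for their dense subsets.

The proof specialises the theorems of `Pool.Agent.X69.Ric` of the starting library.
-/

set_option autoImplicit false

namespace Pool.Agent.Results.MP_c0d11e_nt.DenseSetPatterns

open Filter

/-- All prime factors of `n`, `n + a` and `n + b` are larger than `y`. -/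
def Rough (a b : ℕ) (y : ℝ) (n : ℕ) : Prop := ∀ q : ℕ, q.Prime → (q ∣ n ∨ q ∣ n + a ∨ q ∣ n + b) → y < q

/-- The integer `f · h = f 0 * h 0 + f 1 * h 1 + ...`. -/
def dot {m : ℕ} (f h : Fin m → ℕ) : ℕ := ∑ i, f i * h i

/-- `n` is a centre in `S` for `h`: all the integers `n + f · h` with `|f i| ≤ K` for all `i` are in `S`. -/
def Centre (K : ℕ) (S : Set ℕ) {m : ℕ} (n : ℕ) (h : Fin m → ℕ) : Prop :=
  ∀ f : Fin m → ℤ, (∀ i, |f i| ≤ K) → ∃ s ∈ S, (s : ℤ) = n + ∑ i, f i * (h i : ℤ)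

/-- The number of the vectors `h ∈ {1, ..., D} ^ m` for which `n` is a centre in `S`. -/
noncomputable def patterns (K m D : ℕ) (S : Set ℕ) (n : ℕ) : ℕ :=
  {h : Fin m → ℕ | (∀ i, 1 ≤ h i ∧ h i ≤ D) ∧ Centre K S n h}.ncard

/-- The number of the residues `u` modulo `q` such that `q` divides `w`, `w + a` or `w + b` for some `w = u + f · h`, `f ∈ P`. -/
noncomputable def omega (a b : ℕ) {m : ℕ} (h : Fin m → ℕ) (P : Finset (Fin m → ℕ)) (q : ℕ) : ℕ :=
  {u : ℕ | 1 ≤ u ∧ u ≤ q ∧ ∃ f ∈ P, q ∣ (u + dot f h) ∨ q ∣ (u + dot f h) + a ∨ q ∣ (u + dot f h) + b}.ncard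

/-- The product of the `1 - w q / q` over the primes `q ≤ X`. -/
noncomputable def product (w : ℕ → ℕ) (X : ℕ) : ℝ :=
  ∏ q ∈ (Finset.Icc 1 X).filter Nat.Prime, (1 - (w q : ℝ) / q)

/-- The number of the `n ∈ S` such that all the `n + f · h`, `f ∈ P`, are in `S`. -/
noncomputable def count (S : Set ℕ) {m : ℕ} (h : Fin m → ℕ) (P : Finset (Fin m → ℕ)) : ℕ :=
  {n : ℕ | n ∈ S ∧ ∀ f ∈ P, n + dot f h ∈ S}.ncard

/-- For all `P ⊆ {0, ..., k - 1} ^ m` with `0 ∈ P`: the integers `f · h`, `f ∈ P`, are different, and for all `j`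
the conditions modulo the primes are solvable and the set `S j` contains at least
`c X ∏ (1 - omega h P q / q)` of the patterns `n + f · h`, `f ∈ P`. -/
def Common (a b : ℕ) {M m : ℕ} (c : ℝ) (k X : ℕ) (S : Fin M → Set ℕ) (h : Fin m → ℕ) : Prop :=
  ∀ P : Finset (Fin m → ℕ), (∀ f ∈ P, ∀ i, f i < k) → (fun _ => 0) ∈ P →
    Set.InjOn (fun f => dot f h) (P : Set (Fin m → ℕ)) ∧
      ∀ j, (∀ q : ℕ, q.Prime → omega a b h P q < q) ∧
        c * (X * product (omega a b h P) X) ≤ (count (S j) h P : ℝ)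

/-- The primes `p` for which `p + a` and `p + b` have at most `r` prime factors, counted with multiplicity, all of them
larger than `p ^ (1 / r)`. -/
def Almost (a b : ℕ) (r : ℕ) : Set ℕ := 
  {p | p.Prime ∧ ∀ w : ℕ, w = p + a ∨ w = p + b → ArithmeticFunction.cardFactors w ≤ r ∧
    ∀ q : ℕ, q.Prime → q ∣ w → (p : ℝ) ^ (1 / (r : ℝ)) < q}

/-- the values -/
def V (a b n : ℕ) (i : Fin 2) : ℕ := (fun _ => 1 : Fin 2 → ℕ) i * n + (![a, b] : Fin 2 → ℕ) i

theorem hR (a b q n : ℕ) : (q ∣ n ∨ q ∣ n + a ∨ q ∣ n + b) ↔ (q ∣ n ∨ ∃ i, q ∣ V a b n i) := by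
  simp [V, Fin.exists_fin_two]

theorem almost_eq (a b r : ℕ) : Almost a b r = Pool.Agent.X69.Ric.AVp (V a b) r := by
  ext n
  unfold Almost Pool.Agent.X69.Ric.AVp Pool.Agent.X69.Ric.AV
  simp [V, Fin.forall_fin_two]

theorem psys (a b : ℕ) (hab : (a = 2 ∧ b = 6) ∨ (a = 4 ∧ b = 6)) : Pool.Agent.X69.Ric.PSys
    (fun i : Fin 2 => Pool.Agent.W182.PW.lin ((fun _ => 1 : Fin 2 → ℕ) i) (((![a, b] : Fin 2 → ℕ) i : ℕ) : ℤ))
    (V a b) := by
  apply Pool.Agent.Helper269.psys_lin (fun _ => 1 : Fin 2 → ℕ) (![a, b] : Fin 2 → ℕ)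
  · intro i
    norm_num
  · intro i
    exact Nat.coprime_one_left _
  · rcases hab with ⟨rfl, rfl⟩ | ⟨rfl, rfl⟩ <;> decide
  · rcases hab with ⟨rfl, rfl⟩ | ⟨rfl, rfl⟩ <;> decide
  · intro p hp
    have key : ∀ m : ℕ, ¬ p ∣ m → ¬ p ∣ m + a → ¬ p ∣ m + b → ∃ m : ℕ, ¬ p ∣ m ∧
        ∀ i, ¬ p ∣ (fun _ => 1 : Fin 2 → ℕ) i * m + (![a, b] : Fin 2 → ℕ) i := by
      intro m h1 h2 h3
      refine ⟨m, h1, ?_⟩
      rw [Fin.forall_fin_two]
      simp only [one_mul]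
      exact ⟨h2, h3⟩
    have big : ∀ w : ℕ, 0 < w → w < p → ¬ p ∣ w := fun w h0 hw h => by
      have := Nat.le_of_dvd h0 h
      omega
    have big' : ∀ w : ℕ, w.Prime → p < w → ¬ p ∣ w := fun w h0 hw h => by
      have := (Nat.prime_dvd_prime_iff_eq hp h0).1 h
      omega
    rcases lt_or_ge p 30 with h30 | h30
    · rcases hab with ⟨rfl, rfl⟩ | ⟨rfl, rfl⟩
      · exact key 101 (big' _ (by norm_num) (by omega)) (big' _ (by norm_num) (by omega))
          (big' _ (by norm_num) (by omega))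
      · exact key 97 (big' _ (by norm_num) (by omega)) (big' _ (by norm_num) (by omega))
          (big' _ (by norm_num) (by omega))
    · rcases hab with ⟨rfl, rfl⟩ | ⟨rfl, rfl⟩
      · exact key 5 (big _ (by norm_num) (by omega)) (big _ (by norm_num) (by omega))
          (big _ (by norm_num) (by omega))
      · exact key 7 (big _ (by norm_num) (by omega)) (big _ (by norm_num) (by omega))
          (big _ (by norm_num) (by omega))

/-- **Patterns.** -/
theorem result (a b : ℕ) (hab : (a = 2 ∧ b = 6) ∨ (a = 4 ∧ b = 6)) :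
    (∀ (m K : ℕ) (κ ε : ℝ), 1 ≤ K → 0 < κ → κ ≤ 1 → 0 < ε →
      ∃ c : ℝ, 0 < c ∧ ∃ B : ℕ, ∀ᶠ X : ℕ in atTop,
      ∀ A D : ℕ, Real.log X ^ B ≤ D → D ≤ X → ∀ S : Set ℕ, S ⊆ Set.Ioc A (A + X) →
        (∀ n ∈ S, Rough a b ((X : ℝ) ^ κ) n) →
        ({n : ℕ | n ∈ S ∧ (patterns K m D S n : ℝ) <
          c * ((D : ℝ) ^ m / Real.log X ^ (3 * ((2 * K + 1) ^ m - 1)))}.ncard : ℝ) ≤
            ε * X / Real.log X ^ 3) ∧
    (∀ (M m k : ℕ) (κ δ : ℝ), 0 < κ → κ ≤ 1 → 0 < δ →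
      ∃ c : ℝ, 0 < c ∧ ∃ B : ℕ, ∀ᶠ X : ℕ in atTop,
      ∀ D : ℕ, Real.log X ^ B ≤ D → D ≤ X → ∀ (A : Fin M → ℕ) (S : Fin M → Set ℕ),
        (∀ j, S j ⊆ Set.Ioc (A j) (A j + X)) → (∀ j, ∀ n ∈ S j, Rough a b ((X : ℝ) ^ κ) n) →
        (∀ j, δ * X / Real.log X ^ 3 ≤ ((S j).ncard : ℝ)) →
        c * (D : ℝ) ^ m ≤ ({h : Fin m → ℕ | (∀ i, 1 ≤ h i ∧ h i ≤ D) ∧ Common a b c k X S h}.ncard : ℝ)) ∧
    ∃ r₀ : ℕ, 2 ≤ r₀ ∧ ∀ r : ℕ, r₀ ≤ r → ∃ δ : ℝ, 0 < δ ∧ ∀ᶠ X : ℕ in atTop,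
        δ * X / Real.log X ^ 3 ≤ ((Almost a b r ∩ Set.Ioc X (X + X)).ncard : ℝ) ∧
        ∀ p ∈ Almost a b r ∩ Set.Ioc X (X + X), Rough a b ((X : ℝ) ^ (1 / (r : ℝ))) p := by
  have H := psys a b hab
  refine ⟨fun m K κ ε hK hκ hκ1 hε => ?_, fun M m k κ δ hκ hκ1 hδ => ?_, ?_⟩
  · obtain ⟨c, hc, B, h⟩ := H.typ (fun q n => q ∣ n ∨ q ∣ n + a ∨ q ∣ n + b) (fun q n _ => hR a b q n)
      m K hK κ ε hκ hκ1 hε
    exact ⟨c, hc, B, h⟩
  · obtain ⟨c, hc, B, h⟩ := Pool.Agent.X69.Ric.PSys.common (M := M) (fun _ => H)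
      (fun _ q n => q ∣ n ∨ q ∣ n + a ∨ q ∣ n + b) (fun _ q n _ => hR a b q n) m k κ δ hκ hκ1 hδ
    exact ⟨c, hc, B, h⟩
  · obtain ⟨r₀, hr₀, h⟩ := H.dyadic
    refine ⟨r₀, hr₀, fun r hr => ?_⟩
    obtain ⟨c, hc, h1⟩ := h r hr
    refine ⟨c, hc, ?_⟩
    filter_upwards [h1] with X hX
    rw [almost_eq]
    refine ⟨hX, fun p hp q hq hd => ?_⟩
    exact Pool.Agent.X69.Ric.AVp_gt r (hr₀.trans hr) hp.1 hp.2.1 q hq ((hR a b q p).1 hd)

end Pool.Agent.Results.MP_c0d11e_nt.DenseSetPatterns
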